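import Mathlib
import Pool.Agent.P.MP_4cb405_co.Dp.F

set_option autoImplicit false

namespace Pool.Agent.P.MP_4cb405_co.Fc

open Finset Dp

/-- `A` order-shatters the binary levels of `S` below `h`. -/
def Sh (S : Finset ℕ) : ℕ → Finset ℕ → Prop
  | 0, A => A.Nonempty
  | h + 1, A => if h ∈ S then
      ∃ o, Sh S h (sl (2 ^ h) A (2 * o)) ∧ Sh S h (sl (2 ^ h) A (2 * o + 1))
      else ∃ v, Sh S h (sl (2 ^ h) A v)

/-- A clique of colour `c` below `N` with gaps ordered by the ranks `ρ`. -/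
def Sol (f : ℕ → ℕ → ℕ) (n : ℕ) (ρ : ℕ → ℕ) (N c : ℕ) : Prop :=
  ∃ a : ℕ → ℕ, (∀ l ≤ n, a l < N) ∧ (∀ k l, k < l → l ≤ n → a k < a l ∧ f (a k) (a l) = c) ∧
    ∀ k < n, ∀ l < n, ρ k < ρ l → a (l + 1) - a l < a (k + 1) - a k

open Classical in
/-- All types scheduled on slots of one colour embed in the points with a given word. -/
def Emb (f : ℕ → ℕ → ℕ) (r L M R : ℕ) (b γ φ F : ℕ → ℕ) (h : ℕ) (A : Finset ℕ)
    (w : ℕ → ℕ → ℕ) : Prop :=
  A.Nonempty → ∀ (lam σ : ℕ → ℕ) (c i j e : ℕ), c < r → i ≤ j →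
    (∀ k, i ≤ k → k < j → σ k < h ∧ lam (σ k) = c) →
    (∀ k l, i ≤ k → k < j → i ≤ l → l < j → σ k = σ l → k = l) → Hd σ e i j →
    Abs (Cp f c M σ i j) i j (A.filter (fun x => ∀ p < h, w x p = lam p)) A.card
      (u ((j + 1 - i - 1) * F c)) (tau L R (b c) (γ c) (φ c) (j + 1 - i) e)

end Pool.Agent.P.MP_4cb405_co.Fc
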