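import Mathlib
import Pool.Agent.P.MP_4cb405_co.Fc.Base

/-! Size-dependent sampling parameters: the splitting step and the slot structure. -/

set_option autoImplicit false

namespace Pool.Agent.P.MP_4cb405_co.Fc

open Finset Dp

/-- The density threshold with a size budget `κ`. -/
noncomputable def tau2 (b γ : ℕ) (κ : ℕ → ℕ) (s e : ℕ) : ℝ := u b * 2 ^ (e * (γ + 1) + κ s)

/-- The size budget pays for one sampling step at every split. -/
def Par (L F : ℕ) (κ : ℕ → ℕ) : Prop :=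
  ∀ s₁ s₂, 1 ≤ s₁ → s₁ ≤ s₂ → ∃ φ R, 0 < R ∧ F ≤ φ * R ∧ κ s₁ + L * R ≤ κ (s₁ + s₂) ∧
    κ s₂ + s₁ * φ ≤ κ (s₁ + s₂)

theorem tau2_pos (b γ : ℕ) (κ : ℕ → ℕ) (s e : ℕ) : 0 < tau2 b γ κ s e :=
  mul_pos (u_pos _) (by positivity)

theorem u_le_tau2 (b γ : ℕ) (κ : ℕ → ℕ) (s e : ℕ) : u b ≤ tau2 b γ κ s e :=
  le_mul_of_one_le_right (u_pos _).le (one_le_pow₀ (by norm_num))

theorem num3' (b γ φ : ℕ) (κ : ℕ → ℕ) (s₁ s₂ e : ℕ) (h : κ s₂ + s₁ * φ ≤ κ (s₁ + s₂)) :
    2 * tau2 b γ κ s₂ e ≤ u γ * tau2 b γ κ (s₁ + s₂) (e + 1) * u (s₁ * φ) := by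
  have e1 : 2 * tau2 b γ κ s₂ e = u b * 2 ^ (e * (γ + 1) + κ s₂ + 1) := by
    unfold tau2; rw [pow_succ]; ring
  have e2 : u γ * tau2 b γ κ (s₁ + s₂) (e + 1) * u (s₁ * φ) =
      u (γ + b + s₁ * φ) * 2 ^ ((e + 1) * (γ + 1) + κ (s₁ + s₂)) := by
    unfold tau2; rw [u_add, u_add]; ring
  rw [e1, e2]
  apply u_two_le
  have : (e + 1) * (γ + 1) = e * (γ + 1) + γ + 1 := by ring
  omega

theorem num1' (q R b γ : ℕ) (κ : ℕ → ℕ) (s₁ s₂ e : ℕ) (h : κ s₁ + q * R ≤ κ (s₁ + s₂)) :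
    2 * tau2 b γ κ s₁ e ≤ u γ * tau2 b γ κ (s₁ + s₂) (e + 1) * u q ^ R := by
  have e1 : 2 * tau2 b γ κ s₁ e = u b * 2 ^ (e * (γ + 1) + κ s₁ + 1) := by
    unfold tau2; rw [pow_succ]; ring
  have e2 : u γ * tau2 b γ κ (s₁ + s₂) (e + 1) * u q ^ R =
      u (γ + b + q * R) * 2 ^ ((e + 1) * (γ + 1) + κ (s₁ + s₂)) := by
    unfold tau2; rw [u_pow, u_add, u_add]; ring
  rw [e1, e2]
  apply u_two_le
  have : (e + 1) * (γ + 1) = e * (γ + 1) + γ + 1 := by ring
  omega

theorem num2' (R b γ φ F : ℕ) (κ : ℕ → ℕ) (s₁ e : ℕ) (h1 : 1 ≤ s₁) (hF : F ≤ φ * R)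
    (hb : b + 1 ≤ F) :
    2 * u (s₁ * φ) ^ R ≤ u ((s₁ - 1) * F) * tau2 b γ κ s₁ e := by
  refine le_trans ?_ (mul_le_mul_of_nonneg_left (u_le_tau2 b γ κ s₁ e) (u_pos _).le)
  rw [u_pow, ← u_add]
  obtain ⟨n, rfl⟩ : ∃ n, s₁ = n + 1 := ⟨s₁ - 1, by omega⟩
  have := u_two_le (x := (n + 1) * φ * R) (y := 1) (x' := (n + 1 - 1) * F + b) (y' := 0) (by
    have := Nat.mul_le_mul_left (n + 1) hF
    simp only [Nat.add_sub_cancel]
    nlinarith)
  linarith

/-- The splitting step at a slot where the colour `c` is good. -/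
theorem split2 {f : ℕ → ℕ → ℕ} {q c M b γ kk F : ℕ} {κ : ℕ → ℕ} (hM : 0 < M)
    (hκ : Par q F κ) (hF' : kk + 2 * b + 1 ≤ F) {σ : ℕ → ℕ} {i m j e o : ℕ} (him : i ≤ m)
    (hmj : m < j) {Q S : Finset ℕ} (hQ : Q.Nonempty) (hSQ : S ⊆ Q)
    (hQo : ∀ x ∈ Q, x / M ^ (σ m + 1) = o) (hgood : Good f q c (M ^ σ m) Q b γ kk)
    (hL : ∀ v, (sl (M ^ σ m) Q v).Nonempty → Abs (Cp f c M σ i m) i m (sl (M ^ σ m) S v)
      (sl (M ^ σ m) Q v).card (u ((m + 1 - i - 1) * F)) (tau2 b γ κ (m + 1 - i) e))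
    (hRt : ∀ v, (sl (M ^ σ m) Q v).Nonempty → Abs (Cp f c M σ (m + 1) j) (m + 1) j
      (sl (M ^ σ m) S v) (sl (M ^ σ m) Q v).card (u ((j + 1 - (m + 1) - 1) * F))
      (tau2 b γ κ (j + 1 - (m + 1)) e)) :
    Abs (Cp f c M σ i j) i j S Q.card (u ((j + 1 - i - 1) * F))
      (tau2 b γ κ (j + 1 - i) (e + 1)) := by
  classical
  intro ι K ω Z h0 hZ hpos
  set H := M ^ σ m with hH
  set sL := m + 1 - i with hsL
  set sR := j + 1 - (m + 1) with hsR
  have hs : j + 1 - i = sL + sR := by omega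
  have hsL1 : 1 ≤ sL := by omega
  have hsR1 : 1 ≤ sR := by omega
  rw [hs] at hpos ⊢
  set τ := tau2 b γ κ (sL + sR) (e + 1) with hτ
  have hτ0 : 0 < τ := tau2_pos _ _ _ _ _
  have hQc : (0 : ℝ) < Q.card := by exact_mod_cast hQ.card_pos
  set K1 := K.filter (fun k => τ < ((Z k).card : ℝ) / Q.card) with hK1
  have hΩ : ∑ k ∈ K, ω k * max (((Z k).card : ℝ) / Q.card - τ) 0 ≤ ∑ k ∈ K1, ω k := by
    rw [hK1, Finset.sum_filter]
    refine Finset.sum_le_sum (fun k hk => ?_)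
    split_ifs with h
    · refine mul_le_of_le_one_right (h0 k) (max_le ?_ zero_le_one)
      have : ((Z k).card : ℝ) / Q.card ≤ 1 := by
        rw [div_le_one hQc]
        exact_mod_cast Finset.card_le_card ((hZ k hk).trans hSQ)
      linarith
    · rw [max_eq_right (by linarith [not_lt.1 h]), mul_zero]
  have hΩ0 : 0 < ∑ k ∈ K1, ω k := lt_of_lt_of_le hpos hΩ
  let rc : ι → ℕ × ℕ → Prop := fun k z =>
    Rec f q c H Q (Z k) (u γ * (Z k).card / Q.card) (z.1 / H) (z.2 / H)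
  have havg : ∑ _z ∈ Q ×ˢ Q, u kk * ∑ k ∈ K1, ω k ≤
      ∑ z ∈ Q ×ˢ Q, ∑ k ∈ K1, if rc k z then ω k else 0 := by
    rw [Finset.sum_comm (s := Q ×ˢ Q), Finset.sum_const, nsmul_eq_mul, Finset.card_product,
      ← mul_assoc, Finset.mul_sum]
    refine Finset.sum_le_sum (fun k hk => ?_)
    obtain ⟨hk1, hk2⟩ := Finset.mem_filter.1 hk
    rw [← Finset.sum_filter, Finset.sum_const, nsmul_eq_mul]
    refine mul_le_mul_of_nonneg_right ?_ (h0 k)
    have := hgood (Z k) ((hZ k hk1).trans hSQ) (by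
      have h1 := (u_le_tau2 b γ κ (sL + sR) (e + 1)).trans hk2.le
      rwa [le_div_iff₀ hQc] at h1)
    push_cast
    calc (Q.card : ℝ) * Q.card * u kk = u kk * (Q.card : ℝ) ^ 2 := by ring
      _ ≤ _ := by convert this using 3
  obtain ⟨z, hz, hz2⟩ := Finset.exists_le_of_sum_le (hQ.product hQ) havg
  rw [← Finset.sum_filter] at hz2
  set K2 := K1.filter (fun k => rc k z) with hK2
  set v := z.1 / H
  set v' := z.2 / H
  have hK2pos : 0 < ∑ k ∈ K2, ω k := lt_of_lt_of_le (mul_pos (u_pos _) hΩ0) hz2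
  have hch : ∀ k, ∃ X Y : Finset ℕ, k ∈ K2 → v + 2 ≤ v' ∧ X ⊆ sl H (Z k) v ∧
      Y ⊆ sl H (Z k) v' ∧ X.Nonempty ∧ Y.Nonempty ∧
      u γ * τ * (sl H Q v).card ≤ X.card ∧ u γ * τ * (sl H Q v').card ≤ Y.card ∧
      u q * X.card * Y.card ≤ ∑ x ∈ X, ((Y.filter (fun y => f x y = c)).card : ℝ) := by
    intro k
    by_cases hk : k ∈ K2
    · obtain ⟨hk1, hv, X, Y, a1, a2, a3, a4, a5, a6, a7⟩ := Finset.mem_filter.1 hk
      have hle : u γ * τ ≤ u γ * (Z k).card / Q.card := by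
        rw [mul_div_assoc]
        exact mul_le_mul_of_nonneg_left (Finset.mem_filter.1 hk1).2.le (u_pos _).le
      exact ⟨X, Y, fun _ => ⟨hv, a1, a2, a3, a4,
        le_trans (mul_le_mul_of_nonneg_right hle (by positivity)) a5,
        le_trans (mul_le_mul_of_nonneg_right hle (by positivity)) a6, a7⟩⟩
    · exact ⟨∅, ∅, fun h => absurd h hk⟩
  choose X Y hXY using hch
  have hK2K : ∀ k ∈ K2, k ∈ K := fun k hk =>
    (Finset.mem_filter.1 (Finset.mem_filter.1 hk).1).1
  have hv1 : (sl H Q v).Nonempty :=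
    ⟨z.1, Finset.mem_filter.2 ⟨(Finset.mem_product.1 hz).1, rfl⟩⟩
  have hv2 : (sl H Q v').Nonempty :=
    ⟨z.2, Finset.mem_filter.2 ⟨(Finset.mem_product.1 hz).2, rfl⟩⟩
  have hn1 : (0 : ℝ) < (sl H Q v).card := by exact_mod_cast hv1.card_pos
  have hn2 : (0 : ℝ) < (sl H Q v').card := by exact_mod_cast hv2.card_pos
  have hXS : ∀ k ∈ K2, X k ⊆ sl H S v := fun k hk =>
    (hXY k hk).2.1.trans (Finset.filter_subset_filter _ (hZ k (hK2K k hk)))
  have hYS : ∀ k ∈ K2, Y k ⊆ sl H S v' := fun k hk =>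
    (hXY k hk).2.2.1.trans (Finset.filter_subset_filter _ (hZ k (hK2K k hk)))
  have main : ∃ A B, Cp f c M σ i m A ∧ Cp f c M σ (m + 1) j B ∧
      u ((sL + sR - 1) * F) * ∑ k ∈ K1, ω k ≤ ∑ k ∈ K2,
        if In A i m (X k) ∧ In B (m + 1) j (Y k) ∧
          ∀ l l', i ≤ l → l ≤ m → m + 1 ≤ l' → l' ≤ j → f (A l) (B l') = c then ω k else 0 := by
    rcases le_total sL sR with hle | hle
    · obtain ⟨φ, R, hR, hF, p1, p2⟩ := hκ sL sR hsL1 hle
      obtain ⟨A, B, hA, hB, hw⟩ := two_step (hL v hv1) (hRt v' hv2) hn1 (u_pos _)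
        (tau2_pos _ _ _ _ _) hn2 (u_pos _) (tau2_pos _ _ _ _ _) (fun x y => f x y = c)
        ι K2 ω X Y (u γ * τ) (u q) (u (sL * φ)) R hR (u_pos _).le (u_pos _).le h0 hXS hYS
        (fun k hk => (hXY k hk).2.2.2.1) (fun k hk => (hXY k hk).2.2.2.2.1)
        (fun k hk => (hXY k hk).2.2.2.2.2.1) (fun k hk => (hXY k hk).2.2.2.2.2.2.1)
        (fun k hk => by convert (hXY k hk).2.2.2.2.2.2.2 using 5)
        (num1' q R b γ κ sL sR e p1) (num2' R b γ φ F κ sL e hsL1 hF (by omega))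
        (num3' b γ φ κ sL sR e p2) hK2pos
      refine ⟨A, B, hA, hB, le_trans ?_ (by convert hw using 3)⟩
      have n4 := num4 b kk F sL sR _ _ hsL1 hsR1 hF' (u_le_tau2 b γ κ sL e)
        (u_le_tau2 b γ κ sR e)
      refine (mul_le_mul_of_nonneg_right n4 hΩ0.le).trans ?_
      rw [mul_assoc]
      refine mul_le_mul_of_nonneg_left hz2 ?_
      have := u_pos ((sL - 1) * F)
      have := u_pos ((sR - 1) * F)
      have := tau2_pos b γ κ sL e
      have := tau2_pos b γ κ sR e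
      positivity
    · have hτ' : τ = tau2 b γ κ (sR + sL) (e + 1) := by rw [add_comm]
      obtain ⟨φ, R, hR, hF, p1, p2⟩ := hκ sR sL hsR1 hle
      obtain ⟨B, A, hB, hA, hw⟩ := two_step (hRt v' hv2) (hL v hv1) hn2 (u_pos _)
        (tau2_pos _ _ _ _ _) hn1 (u_pos _) (tau2_pos _ _ _ _ _) (fun y x => f x y = c)
        ι K2 ω Y X (u γ * τ) (u q) (u (sR * φ)) R hR (u_pos _).le (u_pos _).le h0 hYS hXS
        (fun k hk => (hXY k hk).2.2.2.2.1) (fun k hk => (hXY k hk).2.2.2.1)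
        (fun k hk => (hXY k hk).2.2.2.2.2.2.1) (fun k hk => (hXY k hk).2.2.2.2.2.1)
        (fun k hk => by
          have h1 := (hXY k hk).2.2.2.2.2.2.2
          rw [sum_filter_swap (X k) (Y k) (fun x y => f x y = c)] at h1
          rw [mul_right_comm]
          convert h1 using 5)
        (hτ' ▸ num1' q R b γ κ sR sL e p1) (num2' R b γ φ F κ sR e hsR1 hF (by omega))
        (hτ' ▸ num3' b γ φ κ sR sL e p2) hK2pos
      refine ⟨A, B, hA, hB, le_trans ?_ (hw.trans (Finset.sum_le_sum (fun k _ => ?_)))⟩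
      · have n4 := num4 b kk F sR sL _ _ hsR1 hsL1 hF' (u_le_tau2 b γ κ sR e)
          (u_le_tau2 b γ κ sL e)
        rw [add_comm sR sL] at n4
        refine (mul_le_mul_of_nonneg_right n4 hΩ0.le).trans ?_
        rw [mul_assoc]
        refine mul_le_mul_of_nonneg_left hz2 ?_
        have := u_pos ((sL - 1) * F)
        have := u_pos ((sR - 1) * F)
        have := tau2_pos b γ κ sL e
        have := tau2_pos b γ κ sR e
        positivity
      · split_ifs with g1 g2 g2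
        · exact le_rfl
        · exact absurd ⟨g1.2.1, g1.1, fun l l' a1 a2 a3 a4 => g1.2.2 l' l a3 a4 a1 a2⟩ g2
        · exact h0 k
        · exact le_rfl
  obtain ⟨A, B, hA, hB, hw⟩ := main
  obtain ⟨k0, hk0, hk0'⟩ : ∃ k ∈ K2, In A i m (X k) ∧ In B (m + 1) j (Y k) ∧
      ∀ l l', i ≤ l → l ≤ m → m + 1 ≤ l' → l' ≤ j → f (A l) (B l') = c := by
    by_contra hno
    have := lt_of_lt_of_le (mul_pos (u_pos _) hΩ0) hw
    rw [Finset.sum_eq_zero (fun k hk => if_neg (fun h => hno ⟨k, hk, h⟩))] at this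
    exact lt_irrefl _ this
  refine ⟨fun k => if k ≤ m then A k else B k, merge hM him hmj hA hB (hXY k0 hk0).1
    (o := o) (fun l l1 l2 => ?_) (fun l l1 l2 => ?_) hk0'.2.2, ?_⟩
  · have := Finset.mem_filter.1 (hXS k0 hk0 (hk0'.1 l l1 l2))
    exact ⟨this.2, hQo _ (hSQ this.1)⟩
  · have := Finset.mem_filter.1 (hYS k0 hk0 (hk0'.2.1 l l1 l2))
    exact ⟨this.2, hQo _ (hSQ this.1)⟩
  · refine (mul_le_mul_of_nonneg_left hΩ (u_pos _).le).trans (hw.trans ?_)
    refine le_trans (Finset.sum_le_sum (fun k hk => ?_))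
      (Finset.sum_le_sum_of_subset_of_nonneg (fun k hk => hK2K k hk) (fun k _ _ => ?_))
    · split_ifs with g1 g2 g2
      · exact le_rfl
      · refine absurd (fun l l1 l2 => ?_) g2
        by_cases hl : l ≤ m
        · simp only [if_pos hl]
          exact (Finset.mem_filter.1 ((hXY k hk).2.1 (g1.1 l l1 hl))).1
        · simp only [if_neg hl]
          exact (Finset.mem_filter.1 ((hXY k hk).2.2.1 (g1.2.1 l (by omega) l2))).1
      · exact h0 k
      · exact le_rfl
    · split_ifs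
      · exact h0 k
      · exact le_rfl

open Classical in
/-- All types scheduled on slots of one colour embed in the points with a given word. -/
def Emb2 (f : ℕ → ℕ → ℕ) (r M : ℕ) (b γ F : ℕ → ℕ) (κ : ℕ → ℕ → ℕ) (h : ℕ) (A : Finset ℕ)
    (w : ℕ → ℕ → ℕ) : Prop :=
  A.Nonempty → ∀ (lam σ : ℕ → ℕ) (c i j e : ℕ), c < r → i ≤ j →
    (∀ k, i ≤ k → k < j → σ k < h ∧ lam (σ k) = c) →
    (∀ k l, i ≤ k → k < j → i ≤ l → l < j → σ k = σ l → k = l) → Hd σ e i j →
    Abs (Cp f c M σ i j) i j (A.filter (fun x => ∀ p < h, w x p = lam p)) A.card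
      (u ((j + 1 - i - 1) * F c)) (tau2 (b c) (γ c) (κ c) (j + 1 - i) e)

theorem struct2 {f : ℕ → ℕ → ℕ} {r L M P n0 : ℕ} {b γ F kk : ℕ → ℕ} {κ : ℕ → ℕ → ℕ} {ε : ℝ}
    (hM : 0 < M) (hε : 0 < ε) (hε1 : ε ≤ 1) (hF : ∀ c < r, Par L (F c) (κ c))
    (hF' : ∀ c < r, kk c + 2 * b c + 1 ≤ F c)
    (hcar : ∀ (H : ℕ) (S : Finset ℕ), 0 < H → S.Nonempty → (∀ x ∈ S, x < n0) →
      ∃ Q ⊆ S, Q.Nonempty ∧ ε * S.card ≤ Q.card ∧
      ((∃ c < r, Good f L c H Q (b c) (γ c) (kk c)) ∨ ∃ v, ∀ x ∈ Q, x / H = v))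
    (hP : Real.log n0 / ε + 1 ≤ P) (h : ℕ) :
    ∀ (A : Finset ℕ) (o : ℕ), (∀ x ∈ A, x < n0) → (∀ x ∈ A, x / M ^ h = o) →
      ∃ w : ℕ → ℕ → ℕ, (∀ x p, w x p ≤ r) ∧ Emb2 f r M b γ F κ h A w ∧
        ∑ x ∈ A, wt r M h (w x) ≤ (P * M) ^ h := by
  classical
  induction h with
  | zero =>
    intro A o _ hA
    refine ⟨fun _ _ => 0, fun _ _ => Nat.zero_le _, ?_, ?_⟩
    · intro hne lam σ c i j e _ hij hσ _ _
      obtain rfl : i = j := by
        by_contra hn
        exact absurd (hσ i le_rfl (by omega)).1 (Nat.not_lt_zero _)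
      have e0 : i + 1 - i - 1 = 0 := by omega
      rw [e0, zero_mul, u_zero]
      exact abs_leaf _ _ _ _ _ _ (tau2_pos _ _ _ _ _).le hne (Finset.filter_subset _ _)
        (fun x => ⟨fun k l _ _ _ => by omega, fun k _ _ => by omega⟩)
    · simp only [wt, range_zero, prod_empty, pow_zero, ← Finset.card_eq_sum_ones]
      refine Finset.card_le_one.2 (fun x hx y hy => ?_)
      have h1 := hA x hx
      have h2 := hA y hy
      simp only [pow_zero, Nat.div_one] at h1 h2
      rw [h1, h2]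
  | succ h ih =>
    intro A o hAn hAo
    obtain ⟨pt, n, hn, hpt, hpart0⟩ := parts (fun Q => (∀ x ∈ Q, x < n0) →
      ((∃ c < r, Good f L c (M ^ h) Q (b c) (γ c) (kk c)) ∨ ∃ v, ∀ x ∈ Q, x / M ^ h = v)) ε hε
      (fun S hS => by
        by_cases hb : ∀ x ∈ S, x < n0
        · obtain ⟨Q, q1, q2, q3, q4⟩ := hcar (M ^ h) S (by positivity) hS hb
          exact ⟨Q, q1, q2, q3, fun _ => q4⟩
        · exact ⟨S, Subset.rfl, hS, mul_le_of_le_one_left (by positivity) hε1,
            fun h' => absurd h' hb⟩) A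
    have hpart := fun s hs => hpart0 s hs (fun x hx => hAn x (Finset.mem_filter.1 hx).1)
    have hAc : A.card ≤ n0 := by
      have := Finset.card_le_card (show A ⊆ range n0 from fun x hx => Finset.mem_range.2 (hAn x hx))
      simpa using this
    let Q : ℕ → Finset ℕ := fun s => A.filter (fun x => pt x = s)
    have hQA : ∀ s, Q s ⊆ A := fun s => Finset.filter_subset _ _
    have hlab : ∀ s, ∃ l ≤ r, (Q s).Nonempty → (l < r → Good f L l (M ^ h) (Q s) (b l) (γ l) (kk l)) ∧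
        (l = r → ∃ v, ∀ x ∈ Q s, x / M ^ h = v) := by
      intro s
      by_cases hs : (Q s).Nonempty
      · rcases hpart s hs with ⟨c, hc, hg⟩ | hv
        · exact ⟨c, hc.le, fun _ => ⟨fun _ => hg, fun e => by omega⟩⟩
        · exact ⟨r, le_rfl, fun _ => ⟨fun e => by omega, fun _ => hv⟩⟩
      · exact ⟨r, le_rfl, fun e => absurd e hs⟩
    choose lab hlq hlab using hlab
    have hch : ∀ s v, ∃ w : ℕ → ℕ → ℕ, (∀ x p, w x p ≤ r) ∧
        Emb2 f r M b γ F κ h (sl (M ^ h) (Q s) v) w ∧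
        ∑ x ∈ sl (M ^ h) (Q s) v, wt r M h (w x) ≤ (P * M) ^ h := fun s v =>
      ih _ v (fun x hx => hAn x (hQA s (Finset.mem_filter.1 hx).1))
        (fun x hx => (Finset.mem_filter.1 hx).2)
    choose W hWq hWe hWc using hch
    let w : ℕ → ℕ → ℕ := fun x p => if p = h then lab (pt x) else W (pt x) (x / M ^ h) x p
    refine ⟨w, fun x p => ?_, ?_, ?_⟩
    · simp only [w]
      split_ifs
      exacts [hlq _, hWq _ _ _ _]
    · intro hne lam σ c i j e hc hij hσ hinj hd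
      refine abs_avg _ _ _ _ _ _ _ (u_pos _).le hne (Finset.filter_subset _ _) pt (fun s hs => ?_)
      set S := (A.filter (fun x => ∀ p < h + 1, w x p = lam p)).filter (fun x => pt x = s) with hS
      have hSQ : S ⊆ Q s := Finset.filter_subset_filter _ (Finset.filter_subset _ _)
      have hsl : ∀ v, sl (M ^ h) S v ⊆
          (sl (M ^ h) (Q s) v).filter (fun x => ∀ p < h, W s v x p = lam p) := by
        intro v x hx
        obtain ⟨x1, x2⟩ := Finset.mem_filter.1 hx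
        obtain ⟨x3, x4⟩ := Finset.mem_filter.1 x1
        refine Finset.mem_filter.2 ⟨Finset.mem_filter.2 ⟨hSQ x1, x2⟩, fun p hp => ?_⟩
        have := (Finset.mem_filter.1 x3).2 p (by omega)
        simp only [w, if_neg hp.ne, x2, x4] at this
        exact this
      by_cases hm : ∃ m, i ≤ m ∧ m < j ∧ σ m = h
      · obtain ⟨m, m1, m2, m3⟩ := hm
        by_cases hl : lab s = c
        · obtain ⟨e, rfl⟩ : ∃ e', e = e' + 1 := ⟨e - 1, by have := hd.pos (by omega); omega⟩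
          have hmax : ∀ p, i ≤ p → p < j → σ p ≤ σ m := fun p p1 p2 => by
            have := (hσ p p1 p2).1
            omega
          have hlt : ∀ k, i ≤ k → k < j → k ≠ m → σ k < h ∧ lam (σ k) = c := fun k k1 k2 k3 => by
            refine ⟨?_, (hσ k k1 k2).2⟩
            have h1 := (hσ k k1 k2).1
            have h2 : σ k ≠ σ m := fun e => k3 (hinj k m k1 k2 m1 m2 e)
            omega
          have hg := (hlab s hs).1 (by omega)
          rw [hl, ← m3] at hg
          refine split2 hM (hF c hc) (hF' c hc) m1 m2 hs hSQ (o := o)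
            (fun x hx => by rw [m3]; exact hAo x (hQA s hx)) hg (fun v hv => ?_) (fun v hv => ?_)
          · rw [m3] at hv ⊢
            exact (hWe s v hv lam σ c i m e hc m1 (fun k k1 k2 => hlt k k1 (by omega) k2.ne)
              (fun k l k1 k2 l1 l2 => hinj k l k1 (by omega) l1 (by omega))
              (hd.sub m1 m2 hmax le_rfl m2.le (Or.inr le_rfl))).mono (fun _ ha => ha) (hsl v)
          · rw [m3] at hv ⊢
            exact (hWe s v hv lam σ c (m + 1) j e hc m2
              (fun k k1 k2 => hlt k (by omega) k2 (by omega))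
              (fun k l k1 k2 l1 l2 => hinj k l (by omega) k2 (by omega) l2)
              (hd.sub m1 m2 hmax (by omega) le_rfl (Or.inl (by omega)))).mono (fun _ ha => ha)
              (hsl v)
        · have : S = ∅ := by
            refine Finset.eq_empty_of_forall_notMem (fun x hx => hl ?_)
            obtain ⟨x3, x4⟩ := Finset.mem_filter.1 hx
            have := (Finset.mem_filter.1 x3).2 h (by omega)
            simp only [w, if_pos rfl, x4] at this
            rw [this, ← m3]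
            exact (hσ m m1 m2).2
          rw [this]
          exact abs_empty _ _ _ _ _ _ (tau2_pos _ _ _ _ _).le
      · refine abs_avg _ _ _ (Q s) _ _ _ (u_pos _).le hs hSQ (fun x => x / M ^ h) (fun v hv => ?_)
        refine (hWe s v hv lam σ c i j e hc hij (fun k k1 k2 => ⟨?_, (hσ k k1 k2).2⟩) hinj hd).mono
          (fun _ ha => ha) (hsl v)
        have h1 := (hσ k k1 k2).1
        have h2 : σ k ≠ h := fun e => hm ⟨k, k1, k2, e⟩
        omega
    · have hw : ∀ s v, ∀ x ∈ sl (M ^ h) (Q s) v, wt r M (h + 1) (w x) =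
          (if lab s = r then M else 1) * wt r M h (W s v x) := by
        intro s v x hx
        obtain ⟨x1, x2⟩ := Finset.mem_filter.1 hx
        have x4 := (Finset.mem_filter.1 x1).2
        unfold wt
        rw [Finset.prod_range_succ, mul_comm]
        congr 1
        · simp only [w, if_pos rfl, x4]
        · refine Finset.prod_congr rfl (fun p hp => ?_)
          simp only [w, if_neg (Finset.mem_range.1 hp).ne, x2, x4]
      have hs : ∀ s ∈ range n, ∑ x ∈ Q s, wt r M (h + 1) (w x) ≤ M * (P * M) ^ h := by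
        intro s _
        rcases (Q s).eq_empty_or_nonempty with he | hne
        · simp [he]
        have hsum : ∀ V : Finset ℕ, (∀ x ∈ Q s, x / M ^ h ∈ V) →
            ∑ x ∈ Q s, wt r M (h + 1) (w x) ≤
              V.card * ((if lab s = r then M else 1) * (P * M) ^ h) := by
          intro V hV
          rw [← Finset.sum_fiberwise_of_maps_to hV, ← smul_eq_mul]
          refine Finset.sum_le_card_nsmul _ _ _ (fun v _ => ?_)
          refine (Finset.sum_congr rfl (hw s v)).le.trans ?_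
          rw [← Finset.mul_sum]
          exact Nat.mul_le_mul_left _ (hWc s v)
        by_cases hl : lab s = r
        · obtain ⟨v, hv⟩ := (hlab s hne).2 hl
          simpa [hl] using hsum {v} (fun x hx => by simp [hv x hx])
        · have := hsum (Ico (M * o) (M * o + M)) (fun x hx => by
            have h1 := hAo x (hQA s hx)
            rw [pow_succ, ← Nat.div_div_eq_div_mul] at h1
            have h2 := Nat.div_add_mod (x / M ^ h) M
            have h3 := Nat.mod_lt (x / M ^ h) hM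
            rw [h1] at h2
            exact Finset.mem_Ico.2 (by omega))
          simpa [hl] using this
      have hnP : n ≤ P := by
        have : Real.log A.card ≤ Real.log n0 := by
          rcases Nat.eq_zero_or_pos A.card with h0 | h0
          · rw [h0, Nat.cast_zero, Real.log_zero]
            exact Real.log_natCast_nonneg _
          · exact Real.log_le_log (by exact_mod_cast h0) (by exact_mod_cast hAc)
        have h2 : (n : ℝ) ≤ P := hn.trans (le_trans (by gcongr) hP)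
        exact_mod_cast h2
      rw [← Finset.sum_fiberwise_of_maps_to (fun x hx => Finset.mem_range.2 (hpt x hx))]
      refine (Finset.sum_le_card_nsmul _ _ _ hs).trans ?_
      rw [card_range, smul_eq_mul, pow_succ]
      calc n * (M * (P * M) ^ h) ≤ P * (M * (P * M) ^ h) := Nat.mul_le_mul_right _ hnP
        _ = _ := by ring

end Pool.Agent.P.MP_4cb405_co.Fc
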