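import Mathlib
import Pool.Agent.P.MP_4cb405_co.Fc.Sq

/-! The square-root size budget and the numerical bounds that go with it. -/

set_option autoImplicit false

namespace Pool.Agent.P.MP_4cb405_co.Fc

open Finset Dp

/-- The size budget `A * sum_(i = 1..s) (sqrt (t / i) + 1)`. -/
def kap (A t s : ℕ) : ℕ := ∑ i ∈ range s, A * (Nat.sqrt (t / (i + 1)) + 1)

theorem kap_add (A t a k : ℕ) :
    kap A t a + k * (A * (Nat.sqrt (t / (a + k)) + 1)) ≤ kap A t (a + k) := by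
  unfold kap
  rw [Finset.sum_range_add]
  refine Nat.add_le_add_left ?_ _
  have := Finset.card_nsmul_le_sum (range k) (fun i => A * (Nat.sqrt (t / (a + i + 1)) + 1))
    (A * (Nat.sqrt (t / (a + k)) + 1)) (fun i hi => by
      have hi' := Finset.mem_range.1 hi
      refine Nat.mul_le_mul_left _ (Nat.succ_le_succ (Nat.sqrt_le_sqrt ?_))
      exact Nat.div_le_div_left (by omega) (by omega))
  simpa using this

theorem sum_sqrt (t s : ℕ) : (∑ i ∈ range s, Nat.sqrt (t / (i + 1))) ^ 2 ≤ 9 * s * t := by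
  induction s with
  | zero => simp
  | succ s ih =>
    rw [Finset.sum_range_succ]
    generalize ∑ i ∈ range s, Nat.sqrt (t / (i + 1)) = S at ih ⊢
    have h1 : Nat.sqrt (t / (s + 1)) ^ 2 * (s + 1) ≤ t :=
      (Nat.mul_le_mul_right _ (Nat.sqrt_le' _)).trans (Nat.div_mul_le_self _ _)
    generalize Nat.sqrt (t / (s + 1)) = a at h1 ⊢
    have h2 : a ^ 2 * s ≤ t := le_trans (Nat.mul_le_mul_left _ (Nat.le_succ s)) h1
    have h3 : a ^ 2 ≤ t := le_trans (Nat.le_mul_of_pos_right _ (Nat.succ_pos s)) h1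
    have h4 : (a * S) ^ 2 ≤ (3 * t) ^ 2 := by
      calc (a * S) ^ 2 = a ^ 2 * S ^ 2 := by ring
        _ ≤ a ^ 2 * (9 * s * t) := Nat.mul_le_mul_left _ ih
        _ = 9 * t * (a ^ 2 * s) := by ring
        _ ≤ 9 * t * t := Nat.mul_le_mul_left _ h2
        _ = _ := by ring
    have h5 : a * S ≤ 3 * t := (Nat.pow_le_pow_iff_left (by norm_num)).1 h4
    have e1 : (S + a) ^ 2 = S ^ 2 + 2 * (a * S) + a ^ 2 := by ring
    have e2 : 9 * (s + 1) * t = 9 * s * t + 9 * t := by ring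
    omega

theorem kap_le (A t : ℕ) : kap A t t ≤ 4 * (t * A) := by
  unfold kap
  rw [← Finset.mul_sum, Finset.sum_add_distrib, Finset.sum_const, card_range, smul_eq_mul, mul_one]
  have h : (∑ i ∈ range t, Nat.sqrt (t / (i + 1))) ^ 2 ≤ (3 * t) ^ 2 :=
    (sum_sqrt t t).trans (le_of_eq (by ring))
  have h5 := (Nat.pow_le_pow_iff_left (by norm_num)).1 h
  calc A * (∑ i ∈ range t, Nat.sqrt (t / (i + 1)) + t) ≤ A * (3 * t + t) := by gcongr
    _ = _ := by ring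

theorem kap_par (L F A t : ℕ) (hA : 0 < A) (h1 : 2 * L ≤ A) (h2 : 4 * L * F ≤ A ^ 2 * t) :
    Par L F (kap A t) := by
  intro s₁ s₂ k1 k2
  obtain ⟨z, hz⟩ : ∃ z, z = Nat.sqrt (t / (s₁ + s₂)) + 1 := ⟨_, rfl⟩
  have hz1 : 1 ≤ z := by omega
  have hφ : 0 < A * z := by positivity
  have a1 := kap_add A t s₁ s₂
  have a2 := kap_add A t s₂ s₁
  rw [add_comm s₂ s₁] at a2
  rw [← hz] at a1 a2
  refine ⟨A * z, F / (A * z) + 1, Nat.succ_pos _, ?_, le_trans ?_ a1, a2⟩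
  · have := Nat.lt_mul_div_succ F hφ
    omega
  · refine Nat.add_le_add_left ?_ _
    have b1 : t < (s₁ + s₂) * z ^ 2 := by
      have c1 : t / (s₁ + s₂) < z ^ 2 := by rw [hz]; exact Nat.lt_succ_sqrt' _
      have c2 := Nat.lt_mul_div_succ t (show 0 < s₁ + s₂ by omega)
      exact lt_of_lt_of_le c2 (Nat.mul_le_mul_left _ c1)
    have b2 : F / (A * z) * (A * z) ≤ F := Nat.div_mul_le_self _ _
    refine Nat.le_of_mul_le_mul_right (c := 4 * (A * z)) ?_ (by positivity)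
    have b3 : A ^ 2 * t ≤ 2 * (s₂ * (A * z) * (A * z)) := by
      calc A ^ 2 * t ≤ A ^ 2 * ((s₂ + s₂) * z ^ 2) :=
            Nat.mul_le_mul_left _ (b1.le.trans (by gcongr))
        _ = _ := by ring
    have b4 : 4 * L * (A * z) ≤ 2 * (s₂ * (A * z) * (A * z)) := by
      calc 4 * L * (A * z) = 2 * (1 * (2 * L * 1) * (A * z)) := by ring
        _ ≤ _ := by gcongr; omega
    have b5 : 4 * L * (F / (A * z) * (A * z)) ≤ 4 * L * F := Nat.mul_le_mul_left _ b2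
    calc L * (F / (A * z) + 1) * (4 * (A * z)) =
          4 * L * (F / (A * z) * (A * z)) + 4 * L * (A * z) := by ring
      _ ≤ 2 * (s₂ * (A * z) * (A * z)) + 2 * (s₂ * (A * z) * (A * z)) := by omega
      _ = _ := by ring

theorem sq_small (r t l y K : ℕ) (ht : 1 ≤ t) (hK : K = (500 * (r + 1) ^ 2 + 2 * y) * (l + 1)) :
    r + 7 + 2 * t * y * (l + 1) ≤ t * K := by
  have h2 : r + 1 ≤ (r + 1) ^ 2 := Nat.le_self_pow (by norm_num) _
  have h3 : 500 * (r + 1) * 1 ≤ 500 * (r + 1) ^ 2 * (l + 1) := by gcongr; omega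
  have h5 : r + 7 + 2 * y * (l + 1) ≤ K := by rw [hK, add_mul]; omega
  have h6 : 1 * (r + 7) ≤ t * (r + 7) := Nat.mul_le_mul_right _ ht
  calc r + 7 + 2 * t * y * (l + 1) ≤ t * (r + 7) + 2 * t * y * (l + 1) := by omega
    _ = t * (r + 7 + 2 * y * (l + 1)) := by ring
    _ ≤ t * K := Nat.mul_le_mul_left _ h5

theorem sq_par (r t l y K d g E : ℕ) (ht : 1 ≤ t) (hd : 1 ≤ d)
    (hK : K = (500 * (r + 1) ^ 2 + 2 * y) * (l + 1)) (e : E = 2 * d * g + 1) :
    Par (r + 2 * (l + 1)) (2 * (10 * t * K * (g + E)) + r + (2 * t * y * (l + 1) + 6) +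
      2 * (10 * t * (K * E)) + 1) (kap (K * E) t) := by
  have k0 := sq_small r t l y K ht hK
  have k1 : 2 * g ≤ E := by
    have : 2 * 1 * g ≤ 2 * d * g := by gcongr
    omega
  have hE : 1 ≤ E := by omega
  have k2 : t * K * (2 * g) ≤ t * K * E := Nat.mul_le_mul_left _ k1
  have k3 : t * K * 1 ≤ t * K * E := Nat.mul_le_mul_left _ hE
  have k4 : 204 * (r + 2 * (l + 1)) ≤ K := by
    have h2 : r + 1 ≤ (r + 1) ^ 2 := Nat.le_self_pow (by norm_num) _
    have h3 : 500 * (r + 1) * (l + 1) ≤ 500 * (r + 1) ^ 2 * (l + 1) := by gcongr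
    have h4 : 204 * (r + 2 * (l + 1)) ≤ 500 * (r + 1) * (l + 1) := by
      nlinarith [Nat.zero_le (r * l)]
    rw [hK, add_mul]
    exact (h4.trans h3).trans (Nat.le_add_right _ _)
  have k5 : K * 1 ≤ K * E := Nat.mul_le_mul_left _ hE
  refine kap_par _ _ _ _ (by omega) (by omega) ?_
  have e1 : 2 * (10 * t * K * (g + E)) = 10 * (t * K * (2 * g)) + 20 * (t * K * E) := by ring
  have e2 : 2 * (10 * t * (K * E)) = 20 * (t * K * E) := by ring
  have k6 : 2 * (10 * t * K * (g + E)) + r + (2 * t * y * (l + 1) + 6) +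
      2 * (10 * t * (K * E)) + 1 ≤ 51 * (t * K * E) := by omega
  calc _ ≤ 4 * (r + 2 * (l + 1)) * (51 * (t * K * E)) := Nat.mul_le_mul_left _ k6
    _ = 204 * (r + 2 * (l + 1)) * (t * K * E) := by ring
    _ ≤ K * E * (t * K * E) := Nat.mul_le_mul_right _ (by omega)
    _ = _ := by ring

theorem sq_C (r t l y K d g E : ℕ) (ht : 1 ≤ t) (hd : d ≤ t)
    (hK : K = (500 * (r + 1) ^ 2 + 2 * y) * (l + 1)) (e : E = 2 * d * g + 1) :
    1 + r * (2 * r * t) + 1 + (d * (10 * t * K * g + r + 2 + 1) + kap (K * E) t t) ≤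
      10 * t * (K * E) + 0 := by
  have k0 := kap_le (K * E) t
  have k1 : t * K * 1 ≤ t * K * E := Nat.mul_le_mul_left _ (by omega)
  have k2 : d * (r + 3) ≤ t * (r + 3) := Nat.mul_le_mul_right _ hd
  have a1 : 500 * (r + 1) ^ 2 * 1 ≤ 500 * (r + 1) ^ 2 * (l + 1) := by gcongr; omega
  have b1 : (r + 1) ^ 2 = r * r + 2 * r + 1 := by ring
  have k3 : 2 + 2 * (r * r) + (r + 3) ≤ K := by rw [hK, add_mul]; omega
  have k4 := Nat.mul_le_mul_left t k3
  have k5 : t * K * E = 2 * (t * K * d * g) + t * K := by rw [e]; ring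
  have e1 : t * (2 + 2 * (r * r) + (r + 3)) = 2 * t + r * (2 * r * t) + t * (r + 3) := by ring
  have e2 : d * (10 * t * K * g + r + 2 + 1) = 10 * (t * K * d * g) + d * (r + 3) := by ring
  have e3 : t * (K * E) = t * K * E := by ring
  have e4 : 10 * t * (K * E) = 10 * (t * K * E) := by ring
  omega

theorem sq_m (r t l y K d g E : ℕ) (ht : 1 ≤ t) (hd : 1 ≤ d)
    (hK : K = (500 * (r + 1) ^ 2 + 2 * y) * (l + 1)) (e : E = 2 * d * g + 1)
    (e2 : E = (2 * d + 1) ^ (r - 1)) :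
    8 * (10 * t * K * (g + E) + (2 * t * y * (l + 1) + 6)) * (2 * r * t) ≤
      336 * r * 3 ^ (r - 1) * (500 * (r + 1) ^ 2 + 2 * y) * t ^ 2 * (l + 1) * d ^ (r - 1) := by
  have k0 := sq_small r t l y K ht hK
  obtain ⟨D, hD⟩ : ∃ D, D = 3 ^ (r - 1) * d ^ (r - 1) := ⟨_, rfl⟩
  have k1 : E ≤ D := by
    rw [hD, e2, ← mul_pow]
    exact Nat.pow_le_pow_left (by omega) _
  have k2 : g + E ≤ 2 * D := by
    have : 2 * 1 * g ≤ 2 * d * g := by gcongr
    omega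
  have k3 : 10 * t * K * (g + E) ≤ 10 * t * K * (2 * D) := Nat.mul_le_mul_left _ k2
  have k4 : t * K * 1 ≤ t * K * D := Nat.mul_le_mul_left _ (by omega)
  have e1 : 10 * t * K * (2 * D) = 20 * (t * K * D) := by ring
  have k5 : 10 * t * K * (g + E) + (2 * t * y * (l + 1) + 6) ≤ 21 * (t * K * D) := by omega
  calc _ ≤ 8 * (21 * (t * K * D)) * (2 * r * t) := by gcongr
    _ = _ := by rw [hK, hD]; ring

theorem sq_X (r n l y z d m : ℕ) (hr : 1 ≤ r) (hl : n + 1 < 2 ^ (l + 1))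
    (hd : d ≤ n + 1) (hy : y = z + r + 3)
    (hz : 337 * r * 3 ^ (r - 1) * (500 * (r + 1) ^ 2 + 2 * y) ≤ 2 ^ z)
    (hm : m ≤ 336 * r * 3 ^ (r - 1) * (500 * (r + 1) ^ 2 + 2 * y) * (n + 1) ^ 2 * (l + 1) *
      d ^ (r - 1)) :
    36 * (m + 1) ^ (2 * n) < 2 ^ (2 * (n + 1) * y * (l + 1) + 6) := by
  obtain ⟨w, hw⟩ : ∃ w, w = 2 ^ (l + 1) := ⟨_, rfl⟩
  obtain ⟨c, hc⟩ : ∃ c, c = r * 3 ^ (r - 1) * (500 * (r + 1) ^ 2 + 2 * y) := ⟨_, rfl⟩
  have hc1 : 1 ≤ c := by rw [hc]; exact Nat.succ_le_of_lt (by positivity)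
  have w1 : n + 1 ≤ w := by omega
  have w2 : l + 1 ≤ w := by rw [hw]; exact Nat.lt_two_pow_self.le
  have w3 : d ≤ w := hd.trans w1
  have w4 : 2 ≤ w := by
    rw [hw]
    calc 2 = 2 ^ 1 := rfl
      _ ≤ _ := Nat.pow_le_pow_right (by norm_num) (by omega)
  obtain ⟨s, rfl⟩ : ∃ s, r = s + 1 := ⟨r - 1, by omega⟩
  rw [Nat.add_sub_cancel] at hz hm hc
  have h1 : m ≤ 336 * (c * w ^ (s + 3)) := by
    calc m ≤ _ := hm
      _ = 336 * c * (n + 1) ^ 2 * (l + 1) * d ^ s := by rw [hc]; ring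
      _ ≤ 336 * c * w ^ 2 * w * w ^ s := by gcongr
      _ = _ := by ring
  have h2 : 1 ≤ c * w ^ (s + 3) := Nat.succ_le_of_lt (by positivity)
  have h3 : 337 * c ≤ w ^ z := by
    calc 337 * c = _ := by rw [hc]; ring
      _ ≤ 2 ^ z := hz
      _ ≤ _ := Nat.pow_le_pow_left w4 _
  have h4 : m + 1 ≤ w ^ y := by
    calc m + 1 ≤ 337 * (c * w ^ (s + 3)) := by omega
      _ = 337 * c * w ^ (s + 3) := by ring
      _ ≤ w ^ z * w ^ (s + 3) := Nat.mul_le_mul_right _ h3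
      _ = w ^ (z + (s + 3)) := by rw [← pow_add]
      _ ≤ _ := Nat.pow_le_pow_right (by omega) (by omega)
  have h5 : (m + 1) ^ (2 * n) ≤ 2 ^ (2 * (n + 1) * y * (l + 1)) := by
    calc (m + 1) ^ (2 * n) ≤ (w ^ y) ^ (2 * n) := Nat.pow_le_pow_left h4 _
      _ ≤ (w ^ y) ^ (2 * (n + 1)) := Nat.pow_le_pow_right (by positivity) (by omega)
      _ = _ := by rw [hw, ← pow_mul, ← pow_mul]; congr 1; ring
  have h6 : 0 < 2 ^ (2 * (n + 1) * y * (l + 1)) := by positivity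
  rw [pow_add]
  omega

end Pool.Agent.P.MP_4cb405_co.Fc
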