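import Mathlib
import Pool.Agent.P.MP_4cb405_co.Fc.Base

/-! Step SHA. -/

set_option autoImplicit false
set_option linter.unusedSectionVars false

namespace Pool.Agent.P.MP_4cb405_co.Fc

open Finset Dp

namespace SHAx

open scoped Classical

theorem congr (h : ℕ) {S T : Finset ℕ} (e : ∀ x < h, x ∈ S ↔ x ∈ T) (A : Finset ℕ) :
    Sh S h A ↔ Sh T h A := by
  induction h generalizing A with
  | zero => rfl
  | succ h ih =>
    have ih' := ih fun x hx => e x (by omega)
    simp only [Sh, ih', e h (by omega)]

/-- the shattered sets -/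
noncomputable def fam (h : ℕ) (A : Finset ℕ) : Finset (Finset ℕ) :=
  (range h).powerset.filter fun S => Sh S h A

theorem mem_fam {h : ℕ} {A S : Finset ℕ} : S ∈ fam h A ↔ S ⊆ range h ∧ Sh S h A := by
  simp [fam]

theorem card_le (h o : ℕ) (A : Finset ℕ) (hA : ∀ x ∈ A, x / 2 ^ h = o) :
    A.card ≤ (fam h A).card := by
  induction h generalizing o A with
  | zero =>
    rcases A.eq_empty_or_nonempty with rfl | hne
    · simp
    · have h1 : A.card ≤ 1 := card_le_one.2 fun a ha b hb => by
        have := hA a ha
        have := hA b hb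
        simp_all
      exact h1.trans (card_pos.2 ⟨∅, mem_fam.2 ⟨by simp, hne⟩⟩)
  | succ h ih =>
    have h0 := ih (2 * o) (sl (2 ^ h) A (2 * o)) fun x hx => (mem_filter.1 hx).2
    have h1 := ih (2 * o + 1) (sl (2 ^ h) A (2 * o + 1)) fun x hx => (mem_filter.1 hx).2
    have hc : A ⊆ sl (2 ^ h) A (2 * o) ∪ sl (2 ^ h) A (2 * o + 1) := fun x hx => by
      have := hA x hx
      rw [pow_succ, ← Nat.div_div_eq_div_mul] at this
      simp only [sl, mem_union, mem_filter, hx, true_and]
      omega
    set U := fam h (sl (2 ^ h) A (2 * o)) with hU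
    set V := fam h (sl (2 ^ h) A (2 * o + 1)) with hV
    have hn : ∀ S ∈ U ∪ V, h ∉ S := fun S hS hh => by
      rcases mem_union.1 hS with hS | hS <;> simpa using (mem_fam.1 hS).1 hh
    have hr : range h ⊆ range (h + 1) := range_mono (by omega)
    have hsub : (U ∪ V) ∪ (U ∩ V).image (insert h) ⊆ fam (h + 1) A := fun S hS => by
      rcases mem_union.1 hS with hS | hS
      · have := hn S hS
        rcases mem_union.1 hS with hS | hS <;>
          exact mem_fam.2 ⟨(mem_fam.1 hS).1.trans hr, by
            rw [Sh, if_neg this]; exact ⟨_, (mem_fam.1 hS).2⟩⟩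
      · obtain ⟨T, hT, rfl⟩ := mem_image.1 hS
        obtain ⟨a, b⟩ := mem_inter.1 hT
        have e : ∀ x < h, x ∈ insert h T ↔ x ∈ T := fun x hx => by simp [hx.ne]
        refine mem_fam.2 ⟨insert_subset (by simp) ((mem_fam.1 a).1.trans hr), ?_⟩
        rw [Sh, if_pos (mem_insert_self _ _)]
        exact ⟨o, (congr h e _).2 (mem_fam.1 a).2, (congr h e _).2 (mem_fam.1 b).2⟩
    have hd : Disjoint (U ∪ V) ((U ∩ V).image (insert h)) := disjoint_left.2 fun S hS hS' => by
      obtain ⟨T, _, rfl⟩ := mem_image.1 hS'
      exact hn _ hS (mem_insert_self _ _)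
    have hi : ((U ∩ V).image (insert h)).card = (U ∩ V).card := card_image_of_injOn
      fun S hS T hT e => by
        have a := hn S (mem_union_left _ (mem_inter.1 (mem_coe.1 hS)).1)
        have b := hn T (mem_union_left _ (mem_inter.1 (mem_coe.1 hT)).1)
        rw [← erase_insert a, e, erase_insert b]
    have h2 := card_le_card hsub
    rw [card_union_of_disjoint hd, hi, card_union_add_card_inter] at h2
    have h3 := (card_le_card hc).trans (card_union_le _ _)
    omega

theorem count (m k : ℕ) :
    ((range m).powerset.filter fun S => S.card ≤ k).card ≤ (m + 1) ^ k := by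
  induction k with
  | zero =>
    refine card_le_one.2 fun a ha b hb => ?_
    simp only [mem_filter, Nat.le_zero, card_eq_zero] at ha hb
    rw [ha.2, hb.2]
  | succ k ih =>
    set P := (range m).powerset.filter fun S => S.card ≤ k with hP
    have hs : ((range m).powerset.filter fun S => S.card ≤ k + 1) ⊆
        P ∪ (range m ×ˢ P).image fun p => insert p.1 p.2 := fun S hS => by
      obtain ⟨h1, h2⟩ := mem_filter.1 hS
      rcases S.eq_empty_or_nonempty with rfl | ⟨a, ha⟩
      · simp [hP]
      · refine mem_union_right _ (mem_image.2 ⟨(a, S.erase a), mem_product.2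
          ⟨mem_powerset.1 h1 ha, mem_filter.2 ⟨mem_powerset.2
            ((erase_subset _ _).trans (mem_powerset.1 h1)), ?_⟩⟩, insert_erase ha⟩)
        rw [card_erase_of_mem ha]
        omega
    have h1 := (card_le_card hs).trans ((card_union_le _ _).trans
      (Nat.add_le_add_left card_image_le _))
    rw [card_product, card_range] at h1
    rw [pow_succ]
    nlinarith

end SHAx

/-- A large set of numbers below `2 ^ m` order-shatters many levels. -/
theorem SHA (m k : ℕ) (A : Finset ℕ) (hA : ∀ x ∈ A, x < 2 ^ m) (hc : (m + 1) ^ k < A.card) :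
    ∃ S ⊆ range m, k ≤ S.card ∧ Sh S m A := by
  by_contra hn
  push Not at hn
  have h1 := SHAx.card_le m 0 A fun x hx => Nat.div_eq_of_lt (hA x hx)
  have h2 : SHAx.fam m A ⊆ (range m).powerset.filter fun S => S.card ≤ k := fun S hS => by
    obtain ⟨a, b⟩ := SHAx.mem_fam.1 hS
    refine mem_filter.2 ⟨mem_powerset.2 a, ?_⟩
    by_contra hk
    exact hn S a (by omega) b
  have h3 := (card_le_card h2).trans (SHAx.count m k)
  omega

end Pool.Agent.P.MP_4cb405_co.Fc
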