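import Mathlib
import Pool.Agent.P.MP_4cb405_co.Fc.Base

/-! Step SHB. -/

set_option autoImplicit false
set_option linter.unusedSectionVars false

namespace Pool.Agent.P.MP_4cb405_co.Fc

open Finset Dp

theorem SHBx.zoom (S : Finset ℕ) (g : ℕ) : ∀ (h : ℕ) (A : Finset ℕ), g ≤ h → Sh S h A →
    ∃ B ⊆ A, Sh S g B := by
  intro h
  induction h with
  | zero =>
    intro A hg hA
    obtain rfl : g = 0 := by omega
    exact ⟨A, Subset.rfl, hA⟩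
  | succ h ih =>
    intro A hg hA
    rcases Nat.eq_or_lt_of_le hg with rfl | hlt
    · exact ⟨A, Subset.rfl, hA⟩
    · unfold Sh at hA
      split_ifs at hA
      · obtain ⟨o, h1, -⟩ := hA
        obtain ⟨B, b1, b2⟩ := ih _ (by omega) h1
        exact ⟨B, b1.trans (Finset.filter_subset _ _), b2⟩
      · obtain ⟨o, h1⟩ := hA
        obtain ⟨B, b1, b2⟩ := ih _ (by omega) h1
        exact ⟨B, b1.trans (Finset.filter_subset _ _), b2⟩

theorem SHBx.split (S : Finset ℕ) (s h : ℕ) (A : Finset ℕ) (hs : s ∈ S) (hh : s < h)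
    (hA : Sh S h A) : ∃ (o : ℕ) (B C : Finset ℕ), B ⊆ A ∧ C ⊆ A ∧ Sh S s B ∧ Sh S s C ∧
      (∀ x ∈ B, x / 2 ^ s = 2 * o) ∧ ∀ x ∈ C, x / 2 ^ s = 2 * o + 1 := by
  obtain ⟨B, b1, b2⟩ := SHBx.zoom S (s + 1) h A hh hA
  unfold Sh at b2
  rw [if_pos hs] at b2
  obtain ⟨o, h1, h2⟩ := b2
  exact ⟨o, _, _, (Finset.filter_subset _ _).trans b1, (Finset.filter_subset _ _).trans b1, h1, h2,
    fun x hx => (Finset.mem_filter.1 hx).2, fun x hx => (Finset.mem_filter.1 hx).2⟩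

theorem SHBx.gap (a b o p x y : ℕ) (hb : b < a) (h1 : x / 2 ^ a = 2 * o) (h2 : x / 2 ^ b = 2 * p)
    (h3 : y / 2 ^ a = 2 * o + 1) : x + 2 ^ b < y ∧ y < x + 2 ^ (a + 1) := by
  obtain ⟨c, rfl⟩ : ∃ c, a = b + 1 + c := ⟨a - b - 1, by omega⟩
  have p1 : 0 < 2 ^ b := by positivity
  have p2 : 0 < 2 ^ (b + 1 + c) := by positivity
  have x1 := Nat.div_add_mod x (2 ^ (b + 1 + c))
  have x2 := Nat.mod_lt x p2
  have y1 := Nat.div_add_mod y (2 ^ (b + 1 + c))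
  have y2 := Nat.mod_lt y p2
  have x3 := Nat.div_add_mod x (2 ^ b)
  have x4 := Nat.mod_lt x p1
  rw [h1] at x1
  rw [h3] at y1
  rw [h2] at x3
  have e : 2 ^ (b + 1 + c) = 2 ^ b * (2 * 2 ^ c) := by ring
  have k1 : 2 ^ b * (2 * p) < 2 ^ b * (2 * (2 ^ c * (2 * o + 1))) := by
    have : 2 ^ b * (2 * (2 ^ c * (2 * o + 1))) = 2 ^ (b + 1 + c) * (2 * o) + 2 ^ (b + 1 + c) := by
      ring
    omega
  have k2 : 2 * p + 2 ≤ 2 * (2 ^ c * (2 * o + 1)) := by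
    have := Nat.lt_of_mul_lt_mul_left k1
    omega
  have k3 := Nat.mul_le_mul_left (2 ^ b) k2
  have e1 : 2 ^ b * (2 * (2 ^ c * (2 * o + 1))) = 2 ^ (b + 1 + c) * (2 * o + 1) := by ring
  have e2 : 2 ^ b * (2 * p + 2) = 2 ^ b * (2 * p) + 2 * 2 ^ b := by ring
  have e3 : 2 ^ (b + 1 + c) * (2 * o + 1) = 2 ^ (b + 1 + c) * (2 * o) + 2 ^ (b + 1 + c) := by ring
  have e4 : 2 ^ (b + 1 + c + 1) = 2 * 2 ^ (b + 1 + c) := by ring
  omega

/-- Embedding of a gap type in an order-shattered set, two levels per gap. -/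
theorem SHB (S : Finset ℕ) (sa sb : ℕ → ℕ) (i j h : ℕ) (A : Finset ℕ) (hij : i ≤ j)
    (hA : Sh S h A)
    (h1 : ∀ k, i ≤ k → k < j → sa k ∈ S ∧ sb k ∈ S ∧ sb k < sa k ∧ sa k < h)
    (h2 : ∀ k l, i ≤ k → k < j → i ≤ l → l < j → k ≠ l → sa k < sb l ∨ sa l < sb k) :
    ∃ v : ℕ → ℕ, (∀ k, i ≤ k → k ≤ j → v k ∈ A) ∧
      ∀ k, i ≤ k → k < j → v k + 2 ^ sb k < v (k + 1) ∧ v (k + 1) < v k + 2 ^ (sa k + 1) := by
  obtain ⟨n, hn⟩ : ∃ n, n = j - i := ⟨_, rfl⟩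
  induction n using Nat.strong_induction_on generalizing i j h A with
  | _ n ih =>
    rcases Nat.eq_or_lt_of_le hij with rfl | hlt
    · obtain ⟨B, b1, x, hx⟩ := SHBx.zoom S 0 h A (Nat.zero_le _) hA
      exact ⟨fun _ => x, fun _ _ _ => b1 hx, fun k k1 k2 => by omega⟩
    obtain ⟨m, hm, hmax⟩ := Finset.exists_max_image (Ico i j) sa ⟨i, Finset.mem_Ico.2 ⟨le_rfl, hlt⟩⟩
    obtain ⟨m1, m2⟩ := Finset.mem_Ico.1 hm
    obtain ⟨s1, s2, s3, s4⟩ := h1 m m1 m2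
    have hlow : ∀ k, i ≤ k → k < j → k ≠ m → sa k < sb m := fun k k1 k2 k3 => by
      have := hmax k (Finset.mem_Ico.2 ⟨k1, k2⟩)
      have := (h1 k k1 k2).2.2.1
      rcases h2 k m k1 k2 m1 m2 k3 with g | g <;> omega
    obtain ⟨o, B, C, b1, c1, b2, c2, b3, c3⟩ := SHBx.split S (sa m) h A s1 s4 hA
    obtain ⟨p, D, -, d1, -, d2, -, d3, -⟩ := SHBx.split S (sb m) (sa m) B s2 s3 b2
    obtain ⟨v, v1, v2⟩ := ih (m - i) (by omega) i m (sb m) D m1 d2 (fun k k1 k2 =>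
      ⟨(h1 k k1 (by omega)).1, (h1 k k1 (by omega)).2.1, (h1 k k1 (by omega)).2.2.1,
        hlow k k1 (by omega) k2.ne⟩)
      (fun k l k1 k2 l1 l2 => h2 k l k1 (by omega) l1 (by omega)) rfl
    obtain ⟨w, w1, w2⟩ := ih (j - (m + 1)) (by omega) (m + 1) j (sa m) C m2 c2 (fun k k1 k2 =>
      ⟨(h1 k (by omega) k2).1, (h1 k (by omega) k2).2.1, (h1 k (by omega) k2).2.2.1,
        (hlow k (by omega) k2 (by omega)).trans s3⟩)
      (fun k l k1 k2 l1 l2 => h2 k l (by omega) k2 (by omega) l2) rfl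
    refine ⟨fun k => if k ≤ m then v k else w k, fun k k1 k2 => ?_, fun k k1 k2 => ?_⟩
    · by_cases hk : k ≤ m
      · simp only [if_pos hk]; exact b1 (d1 (v1 k k1 hk))
      · simp only [if_neg hk]; exact c1 (w1 k (by omega) k2)
    · rcases lt_trichotomy k m with hk | rfl | hk
      · simp only [if_pos hk.le, if_pos (show k + 1 ≤ m from hk)]; exact v2 k k1 hk
      · simp only [if_pos le_rfl, if_neg (show ¬ k + 1 ≤ k by omega)]
        exact SHBx.gap _ _ o p _ _ s3 (b3 _ (d1 (v1 k k1 le_rfl))) (d3 _ (v1 k k1 le_rfl))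
          (c3 _ (w1 _ le_rfl k2))
      · simp only [if_neg (show ¬ k ≤ m by omega), if_neg (show ¬ k + 1 ≤ m by omega)]
        exact w2 k hk k2

end Pool.Agent.P.MP_4cb405_co.Fc
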