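import Mathlib
import Pool.Agent.P.MP_4cb405_co.Fc.Base
import Pool.Agent.P.MP_4cb405_co.Fc.TSHA
import Pool.Agent.P.MP_4cb405_co.Fc.TSHB

/-! Step CFG. -/

set_option autoImplicit false
set_option linter.unusedSectionVars false

namespace Pool.Agent.P.MP_4cb405_co.Fc

open Finset Dp

/-- A large set contains points whose gaps follow the ranks with margin two. -/
theorem CFG (m n : ℕ) (ρ : ℕ → ℕ) (hρ : ∀ k < n, ρ k < n)
    (hinj : ∀ k < n, ∀ l < n, ρ k = ρ l → k = l) (A : Finset ℕ) (hA : ∀ x ∈ A, x < 2 ^ m)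
    (hc : (m + 1) ^ (2 * n) < A.card) :
    ∃ v : ℕ → ℕ, (∀ k ≤ n, v k ∈ A) ∧ (∀ k l, k < l → l ≤ n → v k + 2 ≤ v l) ∧
      ∀ k < n, ∀ l < n, ρ k < ρ l → v (l + 1) - v l + 2 ≤ v (k + 1) - v k := by
  obtain ⟨S, hS, hk, hsh⟩ := SHA m (2 * n) A hA hc
  obtain ⟨g, g1, g2⟩ := enum S (2 * n) hk
  have key : ∀ k < n, ∀ l < n, ρ k < ρ l →
      g (2 * (n - 1 - ρ l) + 1) < g (2 * (n - 1 - ρ k)) := fun k hk l hl h =>
    g2 _ _ (by have := hρ l hl; omega) (by omega)
  obtain ⟨v, v1, v2⟩ := SHB S (fun k => g (2 * (n - 1 - ρ k) + 1)) (fun k => g (2 * (n - 1 - ρ k)))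
    0 n m A (Nat.zero_le _) hsh
    (fun k _ hk => ⟨g1 _ (by omega), g1 _ (by omega), g2 _ _ (by omega) (by omega),
      mem_range.1 (hS (g1 _ (by omega)))⟩)
    (fun k l _ hk _ hl hne => by
      rcases lt_trichotomy (ρ k) (ρ l) with h | h | h
      · exact Or.inr (key k hk l hl h)
      · exact absurd (hinj k hk l hl h) hne
      · exact Or.inl (key l hl k hk h))
  have st : ∀ k < n, v k + 2 ≤ v (k + 1) := fun k hk => by
    have h1 := (v2 k (Nat.zero_le _) hk).1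
    have h2 : 0 < 2 ^ g (2 * (n - 1 - ρ k)) := by positivity
    omega
  refine ⟨v, fun k hk => v1 k (Nat.zero_le _) hk, fun k l hkl hl => ?_, fun k hk l hl h => ?_⟩
  · induction l, hkl using Nat.le_induction with
    | base => exact st k hl
    | succ l _ ih =>
      have h1 := ih (by omega)
      have h2 := st l hl
      omega
  · have h1 := (v2 k (Nat.zero_le _) hk).1
    have h2 := (v2 l (Nat.zero_le _) hl).2
    have h3 : 2 ^ (g (2 * (n - 1 - ρ l) + 1) + 1) ≤ 2 ^ g (2 * (n - 1 - ρ k)) :=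
      Nat.pow_le_pow_right two_pos (key k hk l hl h)
    have h4 := st l hl
    omega

end Pool.Agent.P.MP_4cb405_co.Fc
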