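import Mathlib
import Pool.Agent.P.MP_4cb405_co.Fc.Base

/-! Step CHO. -/

set_option autoImplicit false
set_option linter.unusedSectionVars false

namespace Pool.Agent.P.MP_4cb405_co.Fc

open Finset Dp

namespace CHOx

theorem split {ι : Type} [Fintype ι] [DecidableEq ι] (g : ι → ℕ) {k l : ι} (hkl : k ≠ l) :
    ∏ i, g i = g k * g l * ∏ i ∈ (univ.erase k).erase l, g i := by
  rw [← mul_prod_erase univ g (mem_univ k),
    ← mul_prod_erase (univ.erase k) g (mem_erase.2 ⟨hkl.symm, mem_univ l⟩), mul_assoc]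

open Classical in
theorem bad {ι : Type} [Fintype ι] [DecidableEq ι] (X : ι → Finset ℕ) (E : ℕ → ℕ → Prop)
    {k l : ι} (hkl : k ≠ l) :
    ((Fintype.piFinset X).filter fun a => E (a k) (a l)).card ≤
      (∑ x ∈ X k, ((X l).filter (fun y => E x y)).card) *
        ∏ i ∈ (univ.erase k).erase l, (X i).card := by
  have hsub : ((Fintype.piFinset X).filter fun a => E (a k) (a l)) ⊆
      (X k).biUnion fun x => ((X l).filter (fun y => E x y)).biUnion fun y =>
        Fintype.piFinset fun i => if i = k then {x} else if i = l then {y} else X i := by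
    intro a ha
    simp only [mem_filter, Fintype.mem_piFinset, mem_biUnion] at ha ⊢
    refine ⟨a k, ha.1 k, a l, ⟨ha.1 l, ha.2⟩, fun i => ?_⟩
    split_ifs with h1 h2
    · simp [h1]
    · simp [h2]
    · exact ha.1 i
  refine (card_le_card hsub).trans (card_biUnion_le.trans ?_)
  rw [sum_mul]
  refine sum_le_sum fun x _ => card_biUnion_le.trans ?_
  rw [← smul_eq_mul, ← sum_const]
  refine sum_le_sum fun y _ => ?_
  rw [Fintype.card_piFinset, split _ hkl]
  simp only [if_true, hkl.symm, if_false, card_singleton, one_mul]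
  refine (prod_congr rfl fun i hi => ?_).le
  simp only [mem_erase] at hi
  simp [hi.1, hi.2.1]

end CHOx

open Classical in
/-- A transversal without bad pairs. -/
theorem CHO (n : ℕ) (X : ℕ → Finset ℕ) (hX : ∀ k ≤ n, (X k).Nonempty) (E : ℕ → ℕ → Prop)
    (ε : ℝ) (h0 : 0 ≤ ε) (hε : ε * ((n : ℝ) + 1) ^ 2 ≤ 1)
    (h : ∀ k l, k < l → l ≤ n →
      ∑ x ∈ X k, (((X l).filter (fun y => E x y)).card : ℝ) ≤ ε * (X k).card * (X l).card) :
    ∃ a : ℕ → ℕ, (∀ k ≤ n, a k ∈ X k) ∧ ∀ k l, k < l → l ≤ n → ¬ E (a k) (a l) := by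
  set Y : Fin (n + 1) → Finset ℕ := fun i => X i with hY
  set T := Fintype.piFinset Y with hT
  set D := (univ : Finset (Fin (n + 1) × Fin (n + 1))).filter fun d => d.1 < d.2 with hD
  have hpos : 0 < (T.card : ℝ) := by
    have : T.Nonempty := Fintype.piFinset_nonempty.2 fun i => hX i (Nat.lt_succ_iff.1 i.2)
    exact_mod_cast this.card_pos
  have hb : ∀ d ∈ D, ((T.filter fun a => E (a d.1) (a d.2)).card : ℝ) ≤ ε * T.card := by
    intro d hd
    have hlt : d.1 < d.2 := (mem_filter.1 hd).2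
    have h1 := CHOx.bad Y E hlt.ne
    have h2 := h d.1 d.2 hlt (Nat.lt_succ_iff.1 d.2.2)
    have h3 : T.card = (Y d.1).card * (Y d.2).card *
        ∏ i ∈ (univ.erase d.1).erase d.2, (Y i).card := by
      rw [hT, Fintype.card_piFinset, CHOx.split _ hlt.ne]
    rw [h3]
    generalize ∏ i ∈ (univ.erase d.1).erase d.2, (Y i).card = c at h1
    have h4 := (Nat.cast_le (α := ℝ)).2 h1
    rw [Nat.cast_mul, Nat.cast_sum] at h4
    refine h4.trans ?_
    rw [Nat.cast_mul, Nat.cast_mul]
    refine (mul_le_mul_of_nonneg_right h2 (Nat.cast_nonneg c)).trans (le_of_eq ?_)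
    change ε * (Y d.1).card * (Y d.2).card * c = _
    ring
  have hDc : (D.card : ℝ) + 1 ≤ ((n : ℝ) + 1) ^ 2 := by
    have : D.card < (univ : Finset (Fin (n + 1) × Fin (n + 1))).card := by
      refine card_lt_card ⟨filter_subset _ _, fun hc => ?_⟩
      have := hc (mem_univ (0, 0))
      simp [hD] at this
    simp only [card_univ, Fintype.card_prod, Fintype.card_fin] at this
    have h5 : D.card + 1 ≤ (n + 1) ^ 2 := by nlinarith
    exact_mod_cast h5
  have hlt : ((D.biUnion fun d => T.filter fun a => E (a d.1) (a d.2)).card : ℝ) < T.card := by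
    have h1 : ((D.biUnion fun d => T.filter fun a => E (a d.1) (a d.2)).card : ℝ) ≤
        ∑ d ∈ D, ((T.filter fun a => E (a d.1) (a d.2)).card : ℝ) := by
      exact_mod_cast card_biUnion_le
    have h2 := sum_le_sum hb
    rw [sum_const, nsmul_eq_mul] at h2
    have h3 : (D.card : ℝ) * ε < 1 := by
      rcases h0.eq_or_lt with h4 | h4
      · rw [← h4]; simp
      · nlinarith
    nlinarith
  obtain ⟨a, ha, ha'⟩ := exists_mem_notMem_of_card_lt_card (Nat.cast_lt.1 hlt)
  refine ⟨fun k => if hk : k < n + 1 then a ⟨k, hk⟩ else 0, fun k hk => ?_, fun k l hkl hl => ?_⟩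
  · have hk' : k < n + 1 := by omega
    simp only [hk', dif_pos]
    exact Fintype.mem_piFinset.1 ha ⟨k, hk'⟩
  · have hk' : k < n + 1 := by omega
    have hl' : l < n + 1 := by omega
    simp only [hk', hl', dif_pos]
    intro hE
    exact ha' (mem_biUnion.2 ⟨(⟨k, hk'⟩, ⟨l, hl'⟩), mem_filter.2 ⟨mem_univ _, hkl⟩,
      mem_filter.2 ⟨ha, hE⟩⟩)

end Pool.Agent.P.MP_4cb405_co.Fc
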