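import Mathlib
import Pool.Agent.P.MP_4cb405_co.Fc.Base

/-! Step IND. -/

set_option autoImplicit false
set_option linter.unusedSectionVars false

namespace Pool.Agent.P.MP_4cb405_co.Fc

open Finset Dp

open Classical in
/-- A sparse relation has a large independent set. -/
theorem IND (G : Finset ℕ) (hG : G.Nonempty) (B : ℕ → ℕ → Prop) (hs : ∀ x y, B x y → B y x)
    (hr : ∀ x, B x x) (β : ℝ)
    (h : (((G ×ˢ G).filter (fun z => B z.1 z.2)).card : ℝ) ≤ β * (G.card : ℝ) ^ 2) :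
    ∃ I ⊆ G, (∀ x ∈ I, ∀ y ∈ I, x ≠ y → ¬ B x y) ∧ 1 ≤ 4 * β * I.card := by
  have hn : (0 : ℝ) < G.card := by exact_mod_cast hG.card_pos
  have hsum : ∑ x ∈ G, ((G.filter (B x)).card : ℝ)
      = (((G ×ˢ G).filter (fun z => B z.1 z.2)).card : ℝ) := by
    rw [Finset.card_filter, Finset.sum_product]
    push_cast
    refine Finset.sum_congr rfl (fun x _ => ?_)
    rw [Finset.card_filter]
    push_cast
    rfl
  have hdeg : ∑ x ∈ G, ((G.filter (B x)).card : ℝ) ≤ β * (G.card : ℝ) ^ 2 := hsum ▸ h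
  have hβ : 0 < β := by
    have h1 : ∑ x ∈ G, (1 : ℝ) ≤ ∑ x ∈ G, ((G.filter (B x)).card : ℝ) := by
      refine Finset.sum_le_sum (fun x hx => ?_)
      have : 0 < (G.filter (B x)).card :=
        Finset.card_pos.mpr ⟨x, Finset.mem_filter.mpr ⟨hx, hr x⟩⟩
      exact_mod_cast this
    simp only [Finset.sum_const, nsmul_eq_mul, mul_one] at h1
    by_contra hb
    have hb' : β ≤ 0 := not_lt.mp hb
    nlinarith [sq_nonneg (G.card : ℝ), mul_nonpos_of_nonpos_of_nonneg hb' (sq_nonneg (G.card : ℝ))]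
  set W := G.filter (fun x => ((G.filter (B x)).card : ℝ) ≤ 2 * β * G.card) with hW
  set V := G.filter (fun x => ¬ ((G.filter (B x)).card : ℝ) ≤ 2 * β * G.card) with hV
  have hWV : (W.card : ℝ) + V.card = G.card := by
    have := Finset.card_filter_add_card_filter_not (s := G)
      (fun x => ((G.filter (B x)).card : ℝ) ≤ 2 * β * G.card)
    exact_mod_cast this
  have hVle : (V.card : ℝ) * (2 * β * G.card) ≤ β * (G.card : ℝ) ^ 2 := by
    have h1 : ∑ x ∈ V, (2 * β * G.card : ℝ) ≤ ∑ x ∈ V, ((G.filter (B x)).card : ℝ) := by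
      refine Finset.sum_le_sum (fun x hx => ?_)
      exact le_of_lt (not_le.mp (Finset.mem_filter.mp hx).2)
    have h2 : ∑ x ∈ V, ((G.filter (B x)).card : ℝ) ≤ ∑ x ∈ G, ((G.filter (B x)).card : ℝ) :=
      Finset.sum_le_sum_of_subset_of_nonneg (Finset.filter_subset _ _)
        (fun _ _ _ => Nat.cast_nonneg _)
    simp only [Finset.sum_const, nsmul_eq_mul] at h1
    linarith
  have hpos : 0 < β * G.card := mul_pos hβ hn
  have hV2 : 2 * (V.card : ℝ) ≤ G.card := by
    by_contra hc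
    have hc' : (G.card : ℝ) < 2 * V.card := not_le.mp hc
    nlinarith [mul_lt_mul_of_pos_left hc' hpos]
  obtain ⟨I, hIW, hIi, hmax⟩ : ∃ I : Finset ℕ, I ⊆ W ∧ (∀ x ∈ I, ∀ y ∈ I, x ≠ y → ¬ B x y) ∧
      ∀ J : Finset ℕ, J ⊆ W → (∀ x ∈ J, ∀ y ∈ J, x ≠ y → ¬ B x y) → J.card ≤ I.card := by
    obtain ⟨P, hP⟩ : ∃ P : Finset ℕ → Prop,
        ∀ I, P I ↔ ∀ x ∈ I, ∀ y ∈ I, x ≠ y → ¬ B x y := ⟨_, fun _ => Iff.rfl⟩
    obtain ⟨I, hI, hmax⟩ := Finset.exists_max_image (W.powerset.filter P) Finset.card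
      ⟨∅, Finset.mem_filter.mpr ⟨Finset.empty_mem_powerset _, (hP _).mpr (by simp)⟩⟩
    refine ⟨I, Finset.mem_powerset.mp (Finset.mem_filter.mp hI).1,
      (hP _).mp (Finset.mem_filter.mp hI).2, fun J hJ hJi => hmax J ?_⟩
    exact Finset.mem_filter.mpr ⟨Finset.mem_powerset.mpr hJ, (hP _).mpr hJi⟩
  have hcov : W ⊆ I.biUnion (fun x => G.filter (B x)) := by
    intro w hw
    have hwG : w ∈ G := (Finset.mem_filter.mp hw).1
    by_contra hc
    have hno : ∀ x ∈ I, ¬ B x w := fun x hx hb =>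
      hc (Finset.mem_biUnion.mpr ⟨x, hx, Finset.mem_filter.mpr ⟨hwG, hb⟩⟩)
    have hwI : w ∉ I := fun hwI => hno w hwI (hr w)
    have hmem : ∀ x ∈ insert w I, ∀ y ∈ insert w I, x ≠ y → ¬ B x y := by
      intro x hx y hy hxy
      rcases Finset.mem_insert.mp hx with hx' | hx'
      · rcases Finset.mem_insert.mp hy with hy' | hy'
        · exact absurd (hx'.trans hy'.symm) hxy
        · exact fun hb => hno y hy' (hs _ _ (hx' ▸ hb))
      · rcases Finset.mem_insert.mp hy with hy' | hy'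
        · exact hy' ▸ hno x hx'
        · exact hIi x hx' y hy' hxy
    have := hmax _ (Finset.insert_subset hw hIW) hmem
    rw [Finset.card_insert_of_notMem hwI] at this
    omega
  have hWle : (W.card : ℝ) ≤ I.card * (2 * β * G.card) := by
    have h1 : W.card ≤ ∑ x ∈ I, (G.filter (B x)).card :=
      (Finset.card_le_card hcov).trans Finset.card_biUnion_le
    have h2 : ∑ x ∈ I, ((G.filter (B x)).card : ℝ) ≤ ∑ x ∈ I, (2 * β * G.card : ℝ) :=
      Finset.sum_le_sum (fun x hx => (Finset.mem_filter.mp (hIW hx)).2)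
    simp only [Finset.sum_const, nsmul_eq_mul] at h2
    have h3 : (W.card : ℝ) ≤ ∑ x ∈ I, ((G.filter (B x)).card : ℝ) := by exact_mod_cast h1
    linarith
  refine ⟨I, hIW.trans (Finset.filter_subset _ _), hIi, ?_⟩
  by_contra hc
  have hc' : 4 * β * I.card < 1 := not_le.mp hc
  nlinarith [mul_lt_mul_of_pos_left hc' hn]

end Pool.Agent.P.MP_4cb405_co.Fc
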