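import Mathlib
import Pool.Agent.P.MP_4cb405_co.Fc.Base
import Pool.Agent.P.MP_4cb405_co.Fc.TCFG
import Pool.Agent.P.MP_4cb405_co.Fc.TIND
import Pool.Agent.P.MP_4cb405_co.Fc.TCHO

/-! Step CARVE. -/

set_option autoImplicit false
set_option linter.unusedSectionVars false

namespace Pool.Agent.P.MP_4cb405_co.Fc

open Finset Dp

/-- Pairs in equal or adjacent blocks. -/
theorem CARVEx.near (H : ℕ) (G : Finset ℕ) (z : ℝ) (hs : ∀ v, ((sl H G v).card : ℝ) ≤ z) :
    (((G ×ˢ G).filter (fun p => p.1 / H ≤ p.2 / H + 1 ∧ p.2 / H ≤ p.1 / H + 1)).card : ℝ) ≤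
      3 * (z * G.card) := by
  classical
  have e1 : (((G ×ˢ G).filter
      (fun p => p.1 / H ≤ p.2 / H + 1 ∧ p.2 / H ≤ p.1 / H + 1)).card : ℝ) =
      ∑ x ∈ G, ((G.filter (fun y => x / H ≤ y / H + 1 ∧ y / H ≤ x / H + 1)).card : ℝ) := by
    simp only [Finset.card_filter, Nat.cast_sum]
    exact Finset.sum_product _ _ _
  rw [e1]
  have e2 : ∀ x ∈ G, ((G.filter (fun y => x / H ≤ y / H + 1 ∧ y / H ≤ x / H + 1)).card : ℝ) ≤
      3 * z := by
    intro x _
    have h1 : G.filter (fun y => x / H ≤ y / H + 1 ∧ y / H ≤ x / H + 1) ⊆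
        sl H G (x / H) ∪ (sl H G (x / H + 1) ∪ sl H G (x / H - 1)) := by
      intro y hy
      obtain ⟨y1, y2⟩ := Finset.mem_filter.1 hy
      simp only [sl, Finset.mem_union, Finset.mem_filter, y1, true_and]
      generalize x / H = a at y2 ⊢
      generalize y / H = b at y2 ⊢
      omega
    have h2 := (Finset.card_le_card h1).trans ((Finset.card_union_le _ _).trans
      (Nat.add_le_add_left (Finset.card_union_le _ _) _))
    have h3 := (Nat.cast_le (α := ℝ)).2 h2
    push_cast at h3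
    linarith [hs (x / H), hs (x / H + 1), hs (x / H - 1)]
  refine (Finset.sum_le_card_nsmul _ _ _ e2).trans (le_of_eq ?_)
  rw [nsmul_eq_mul]
  ring

/-- The ladder without a rung for the last colour. -/
theorem CARVE (r L X m n : ℕ) (f : ℕ → ℕ → ℕ) (hf : ∀ x y, f x y < r + 1) (ρ : ℕ → ℕ)
    (hρ : ∀ k < n, ρ k < n) (hinj : ∀ k < n, ∀ l < n, ρ k = ρ l → k = l)
    (hL : r * (n + 1) ^ 2 ≤ 2 ^ L) (hX : 36 * (m + 1) ^ (2 * n) < 2 ^ X)
    (hno : ¬ Sol f n ρ (2 ^ m) r) (H : ℕ) (hH : 0 < H) (T b : ℕ → ℕ)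
    (hT : ∀ c < r, T c = b c + T (c + 1)) (hTq : T r = 0)
    (R : Finset ℕ) (hR : R.Nonempty) (hRm : ∀ x ∈ R, x < 2 ^ m) :
    ∃ Q ⊆ R, Q.Nonempty ∧ u (T 0 + X) * R.card ≤ Q.card ∧
      ((∃ c < r, Good f L c H Q (b c) (T (c + 1) + r + 2) (2 * T c + r + X)) ∨
        ∃ v, ∀ x ∈ Q, x / H = v) := by
  classical
  by_contra hcon
  have hRc : (0 : ℝ) < R.card := by exact_mod_cast hR.card_pos
  have hch : ∀ (Q : Finset ℕ) (c : ℕ), ∃ Z : Finset ℕ,
      ¬ Good f L c H Q (b c) (T (c + 1) + r + 2) (2 * T c + r + X) →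
      Z ⊆ Q ∧ u (b c) * Q.card ≤ Z.card ∧
        (((Q ×ˢ Q).filter (fun z => Rec f L c H Q Z (u (T (c + 1) + r + 2) * Z.card / Q.card)
          (z.1 / H) (z.2 / H))).card : ℝ) < u (2 * T c + r + X) * (Q.card : ℝ) ^ 2 := by
    intro Q c
    by_cases hg : Good f L c H Q (b c) (T (c + 1) + r + 2) (2 * T c + r + X)
    · exact ⟨∅, fun h => absurd hg h⟩
    · unfold Good at hg
      push Not at hg
      obtain ⟨Z, h1, h2, h3⟩ := hg
      exact ⟨Z, fun _ => ⟨h1, h2, h3⟩⟩
  choose nx hnx using hch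
  let Qs : ℕ → Finset ℕ := fun c => Nat.rec R (fun c Q => nx Q c) c
  have Q0 : Qs 0 = R := rfl
  have QS : ∀ c, Qs (c + 1) = nx (Qs c) c := fun c => rfl
  have hne : ∀ (Q : Finset ℕ) (n : ℕ), u n * R.card ≤ Q.card → Q.Nonempty := fun Q n h => by
    have : (0 : ℝ) < Q.card := lt_of_lt_of_le (mul_pos (u_pos n) hRc) h
    exact Finset.card_pos.1 (by exact_mod_cast this)
  have hng : ∀ c < r, Qs c ⊆ R → u (T 0) * R.card ≤ u (T c) * (Qs c).card →
      ¬ Good f L c H (Qs c) (b c) (T (c + 1) + r + 2) (2 * T c + r + X) := by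
    intro c hc h1 h2 hg
    have h3 : u (T 0 + X) * R.card ≤ (Qs c).card := by
      calc u (T 0 + X) * R.card ≤ u (T 0) * R.card := by gcongr; exact u_anti (by omega)
        _ ≤ u (T c) * (Qs c).card := h2
        _ ≤ 1 * (Qs c).card := by gcongr; exact u_le_one _
        _ = _ := one_mul _
    exact hcon ⟨Qs c, h1, hne _ _ h3, h3, Or.inl ⟨c, hc, hg⟩⟩
  have hinv : ∀ c ≤ r, Qs c ⊆ R ∧ u (T 0) * R.card ≤ u (T c) * (Qs c).card := by
    intro c
    induction c with
    | zero => intro _; exact ⟨Subset.rfl, le_rfl⟩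
    | succ c ih =>
      intro hc
      obtain ⟨i1, i2⟩ := ih (by omega)
      obtain ⟨k1, k2, _⟩ := hnx (Qs c) c (hng c (by omega) i1 i2)
      refine ⟨k1.trans i1, i2.trans ?_⟩
      rw [hT c (by omega), u_add, QS, mul_comm (u (b c)), mul_assoc]
      exact mul_le_mul_of_nonneg_left k2 (u_pos _).le
  have hstep : ∀ c < r, Qs (c + 1) ⊆ Qs c ∧ u (b c) * (Qs c).card ≤ (Qs (c + 1)).card ∧
      ((((Qs c) ×ˢ (Qs c)).filter (fun z => Rec f L c H (Qs c) (Qs (c + 1))
        (u (T (c + 1) + r + 2) * (Qs (c + 1)).card / (Qs c).card)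
          (z.1 / H) (z.2 / H))).card : ℝ) < u (2 * T c + r + X) * ((Qs c).card : ℝ) ^ 2 :=
    fun c hc => hnx (Qs c) c (hng c hc (hinv c hc.le).1 (hinv c hc.le).2)
  have hchain : ∀ n c, c + n = r → Qs r ⊆ Qs c ∧ u (T c) * (Qs c).card ≤ (Qs r).card := by
    intro n
    induction n with
    | zero =>
      intro c hc
      obtain rfl : c = r := by omega
      exact ⟨Subset.rfl, by rw [hTq, u_zero, one_mul]⟩
    | succ n ih =>
      intro c hc
      obtain ⟨i1, i2⟩ := ih (c + 1) (by omega)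
      obtain ⟨k1, k2, _⟩ := hstep c (by omega)
      refine ⟨i1.trans k1, le_trans ?_ i2⟩
      rw [hT c (by omega), u_add, mul_comm (u (b c)), mul_assoc]
      exact mul_le_mul_of_nonneg_left k2 (u_pos _).le
  have hch : ∀ c ≤ r, Qs r ⊆ Qs c ∧ u (T c) * (Qs c).card ≤ (Qs r).card :=
    fun c hc => hchain (r - c) c (by omega)
  set Z := Qs r with hZ
  have hZR : u (T 0) * R.card ≤ Z.card := (hch 0 (Nat.zero_le _)).2
  have hZc : (0 : ℝ) < Z.card := lt_of_lt_of_le (mul_pos (u_pos _) hRc) hZR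
  have hlight : ∀ v, ((sl H Z v).card : ℝ) ≤ u X * Z.card := by
    intro v
    by_contra hlt
    push Not at hlt
    have h3 : u (T 0 + X) * R.card ≤ (sl H Z v).card := by
      rw [u_add, mul_comm (u (T 0)), mul_assoc]
      exact le_trans (mul_le_mul_of_nonneg_left hZR (u_pos _).le) hlt.le
    exact hcon ⟨sl H Z v, (Finset.filter_subset _ _).trans (hch 0 (Nat.zero_le _)).1,
      hne _ _ h3, h3, Or.inr ⟨v, fun x hx => (Finset.mem_filter.1 hx).2⟩⟩
  let η : ℕ → ℝ := fun c => u (T (c + 1) + r + 2) * (Qs (c + 1)).card / (Qs c).card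
  have hQpos : ∀ c ≤ r, (0 : ℝ) < (Qs c).card := fun c hc => by
    have : (Z.card : ℝ) ≤ (Qs c).card := by exact_mod_cast Finset.card_le_card (hch c hc).1
    linarith
  let Bd : ℕ → Finset ℕ := fun c =>
    Z.filter (fun x => ((sl H Z (x / H)).card : ℝ) < η c * (sl H (Qs c) (x / H)).card)
  have hBd : ∀ c ∈ range r, ((Bd c).card : ℝ) ≤ u r * (Z.card / 4) := by
    intro c hc
    have hc' : c < r := by simpa using hc
    have h1 := thin_le H (Qs c) Z (η c) (div_nonneg (mul_nonneg (u_pos _).le (by positivity))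
      (by positivity))
    have h2 : η c * (Qs c).card = u r * (u (T (c + 1)) * (Qs (c + 1)).card / 4) := by
      have := hQpos c hc'.le
      have e : u 2 = 1 / 4 := by norm_num [u]
      simp only [η]
      rw [u_add, u_add, e]
      field_simp
    refine h1.trans ?_
    rw [h2]
    have := (hch (c + 1) hc').2
    have hu := u_pos r
    gcongr
  set G := Z \ (range r).biUnion Bd with hG
  have hGc : 3 / 4 * (Z.card : ℝ) ≤ G.card := by
    have h1 : Z.card ≤ G.card + ((range r).biUnion Bd).card := by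
      have := Finset.le_card_sdiff ((range r).biUnion Bd) Z
      rw [hG]; omega
    have h2 : (((range r).biUnion Bd).card : ℝ) ≤ ∑ c ∈ range r, ((Bd c).card : ℝ) := by
      exact_mod_cast Finset.card_biUnion_le
    have h3 := Finset.sum_le_sum hBd
    rw [Finset.sum_const, card_range, nsmul_eq_mul, ← mul_assoc] at h3
    have h4 : (r : ℝ) * u r * (Z.card / 4) ≤ 1 * (Z.card / 4) := by
      gcongr; exact mul_u_le_one r
    have h5 : (Z.card : ℝ) ≤ G.card + ((range r).biUnion Bd).card := by exact_mod_cast h1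
    linarith
  have hGZ : G ⊆ Z := Finset.sdiff_subset
  let Rc : ℕ → Finset (ℕ × ℕ) := fun c => ((Qs c) ×ˢ (Qs c)).filter
    (fun z => Rec f L c H (Qs c) (Qs (c + 1)) (η c) (z.1 / H) (z.2 / H))
  have hRc' : ∀ c ∈ range r, ((Rc c).card : ℝ) ≤ u r * (u X * (Z.card : ℝ) ^ 2) := by
    intro c hc
    have hc' : c < r := by simpa using hc
    refine (hstep c hc').2.2.le.trans ?_
    have h1 := (hch c hc'.le).2
    have h2 : (u (T c) * (Qs c).card) ^ 2 ≤ (Z.card : ℝ) ^ 2 :=
      pow_le_pow_left₀ (mul_nonneg (u_pos _).le (by positivity)) h1 2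
    rw [u_add, u_add, two_mul, u_add]
    have hu := u_pos r
    have hu' := u_pos X
    calc _ = u r * (u X * (u (T c) * (Qs c).card) ^ 2) := by ring
      _ ≤ _ := by gcongr
  set U := (range r).biUnion Rc with hU
  have hUc : (U.card : ℝ) ≤ u X * (Z.card : ℝ) ^ 2 := by
    have h1 : (U.card : ℝ) ≤ ∑ c ∈ range r, ((Rc c).card : ℝ) := by
      exact_mod_cast Finset.card_biUnion_le
    have h3 := Finset.sum_le_sum hRc'
    rw [Finset.sum_const, card_range, nsmul_eq_mul, ← mul_assoc] at h3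
    have h4 : (r : ℝ) * u r * (u X * (Z.card : ℝ) ^ 2) ≤ 1 * (u X * (Z.card : ℝ) ^ 2) := by
      have := u_pos X
      gcongr; exact mul_u_le_one r
    linarith
  have hGpos : (0 : ℝ) < G.card := by linarith
  have hGne : G.Nonempty := Finset.card_pos.1 (by exact_mod_cast hGpos)
  let Bad : ℕ → ℕ → Prop := fun x y =>
    (x / H ≤ y / H + 1 ∧ y / H ≤ x / H + 1) ∨ (x, y) ∈ U ∨ (y, x) ∈ U
  have hnear := CARVEx.near H G (u X * Z.card) (fun v => le_trans (by
    exact_mod_cast Finset.card_le_card (Finset.filter_subset_filter _ hGZ)) (hlight v))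
  have hbad : (((G ×ˢ G).filter (fun z => Bad z.1 z.2)).card : ℝ) ≤
      9 * u X * (G.card : ℝ) ^ 2 := by
    have h1 : (G ×ˢ G).filter (fun z => Bad z.1 z.2) ⊆
        (G ×ˢ G).filter (fun p => p.1 / H ≤ p.2 / H + 1 ∧ p.2 / H ≤ p.1 / H + 1) ∪
          (U ∪ U.image Prod.swap) := by
      intro z hz
      obtain ⟨z1, z2⟩ := Finset.mem_filter.1 hz
      rcases z2 with z2 | z2 | z2
      · exact Finset.mem_union_left _ (Finset.mem_filter.2 ⟨z1, z2⟩)
      · exact Finset.mem_union_right _ (Finset.mem_union_left _ z2)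
      · exact Finset.mem_union_right _ (Finset.mem_union_right _
          (Finset.mem_image.2 ⟨(z.2, z.1), z2, rfl⟩))
    have h2 := (Finset.card_le_card h1).trans ((Finset.card_union_le _ _).trans
      (Nat.add_le_add_left ((Finset.card_union_le _ _).trans
        (Nat.add_le_add_left Finset.card_image_le _)) _))
    have h3 : (((G ×ˢ G).filter (fun z => Bad z.1 z.2)).card : ℝ) ≤
        (((G ×ˢ G).filter (fun p => p.1 / H ≤ p.2 / H + 1 ∧ p.2 / H ≤ p.1 / H + 1)).card : ℝ) +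
          (U.card + U.card) := by exact_mod_cast h2
    have h4 : (Z.card : ℝ) ≤ 4 / 3 * G.card := by linarith
    have h5 : (Z.card : ℝ) ^ 2 ≤ (4 / 3 * G.card) ^ 2 := pow_le_pow_left₀ hZc.le h4 2
    have h6 : u X * (Z.card : ℝ) ^ 2 ≤ u X * (4 / 3 * G.card) ^ 2 :=
      mul_le_mul_of_nonneg_left h5 (u_pos X).le
    have h7 : u X * Z.card * G.card ≤ u X * (4 / 3 * G.card) * G.card := by
      have := u_pos X
      gcongr
    have h8 : 0 ≤ u X * (G.card : ℝ) ^ 2 := mul_nonneg (u_pos X).le (by positivity)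
    nlinarith
  obtain ⟨I, hIG, hI, hIc⟩ := IND G hGne Bad (fun x y h => by
      rcases h with h | h | h
      exacts [Or.inl ⟨h.2, h.1⟩, Or.inr (Or.inr h), Or.inr (Or.inl h)])
    (fun x => Or.inl ⟨by omega, by omega⟩) (9 * u X) (by convert hbad)
  have hZR' : Z ⊆ R := (hch 0 (Nat.zero_le _)).1
  have hIi : (I.image (fun x => x / H)).card = I.card :=
    Finset.card_image_of_injOn (fun x hx y hy e => by
      by_contra hn
      have e' : x / H = y / H := e
      exact hI x hx y hy hn (Or.inl ⟨by omega, by omega⟩))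
  obtain ⟨v, hv1, hv2, hv3⟩ := CFG m n ρ hρ hinj (I.image (fun x => x / H)) (fun y hy => by
      obtain ⟨x, hx, rfl⟩ := Finset.mem_image.1 hy
      exact lt_of_le_of_lt (Nat.div_le_self _ _) (hRm x (hZR' (hGZ (hIG hx))))) (by
      rw [hIi]
      have h1 : (2 : ℝ) ^ X ≤ 36 * I.card := by
        have h2 := mul_le_mul_of_nonneg_right hIc (show (0 : ℝ) ≤ 2 ^ X by positivity)
        have h3 : 4 * (9 * u X) * I.card * 2 ^ X = 36 * I.card * (u X * 2 ^ X) := by ring
        rw [h3, u_mul_two_pow] at h2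
        linarith
      have h2 : 2 ^ X ≤ 36 * I.card := by exact_mod_cast h1
      omega)
  have hx : ∀ k, ∃ x, k ≤ n → x ∈ I ∧ x / H = v k := fun k => by
    by_cases hk : k ≤ n
    · obtain ⟨x, h1, h2⟩ := Finset.mem_image.1 (hv1 k hk)
      exact ⟨x, fun _ => ⟨h1, h2⟩⟩
    · exact ⟨0, fun h => absurd h hk⟩
  choose x hx using hx
  have hXne : ∀ k ≤ n, (sl H Z (v k)).Nonempty := fun k hk =>
    ⟨x k, Finset.mem_filter.2 ⟨hGZ (hIG (hx k hk).1), (hx k hk).2⟩⟩
  have hsp : ∀ k l, k < l → l ≤ n → ∀ c ∈ range r,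
      ∑ y ∈ sl H Z (v k), (((sl H Z (v l)).filter (fun z => f y z = c)).card : ℝ) ≤
        u L * (sl H Z (v k)).card * (sl H Z (v l)).card := by
    intro k l hkl hl c hc0
    have hc : c < r := by simpa using hc0
    by_contra hlt
    push Not at hlt
    obtain ⟨k1, k2⟩ := hx k (by omega)
    obtain ⟨l1, l2⟩ := hx l hl
    have h2 := hv2 k l hkl hl
    have hgood : ∀ y ∈ G, η c * (sl H (Qs c) (y / H)).card ≤ (sl H Z (y / H)).card := by
      intro y hy
      by_contra hlt
      push Not at hlt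
      exact (Finset.mem_sdiff.1 hy).2 (Finset.mem_biUnion.2 ⟨c, hc0,
        Finset.mem_filter.2 ⟨hGZ hy, hlt⟩⟩)
    have hZs := (hch c hc.le).1
    have hZs' := (hch (c + 1) hc).1
    refine hI (x k) k1 (x l) l1 (fun e => by rw [e] at k2; omega) (Or.inr (Or.inl ?_))
    refine Finset.mem_biUnion.2 ⟨c, hc0, Finset.mem_filter.2
      ⟨Finset.mem_product.2 ⟨hZs (hGZ (hIG k1)), hZs (hGZ (hIG l1))⟩, ?_⟩⟩
    have g1 := hgood _ (hIG k1)
    have g2 := hgood _ (hIG l1)
    simp only [k2, l2] at g1 g2 ⊢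
    exact ⟨h2, _, _, Finset.filter_subset_filter _ hZs', Finset.filter_subset_filter _ hZs',
      hXne k (by omega), hXne l hl, g1, g2, hlt.le⟩
  obtain ⟨a, ha1, ha2⟩ := CHO n (fun k => sl H Z (v k)) hXne (fun y z => f y z ≠ r) (r * u L)
    (mul_nonneg (by positivity) (u_pos _).le) (by
      have h1 : ((r * (n + 1) ^ 2 : ℕ) : ℝ) ≤ ((2 ^ L : ℕ) : ℝ) := by exact_mod_cast hL
      push_cast at h1
      calc _ = u L * (r * ((n : ℝ) + 1) ^ 2) := by ring
        _ ≤ u L * 2 ^ L := mul_le_mul_of_nonneg_left h1 (u_pos _).le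
        _ = 1 := u_mul_two_pow L) (fun k l hkl hl => by
      have h1 := Finset.sum_le_sum (hsp k l hkl hl)
      rw [Finset.sum_const, card_range, nsmul_eq_mul, Finset.sum_comm] at h1
      refine le_trans (Finset.sum_le_sum (fun y _ => ?_)) (h1.trans (le_of_eq (by ring)))
      have h2 : ∀ inst : DecidablePred (fun z => f y z ≠ r),
          @Finset.filter _ (fun z => f y z ≠ r) inst (sl H Z (v l)) ⊆
          (range r).biUnion (fun c => (sl H Z (v l)).filter (fun z => f y z = c)) := by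
        intro inst z hz
        obtain ⟨z1, z2⟩ := Finset.mem_filter.1 hz
        have := hf y z
        exact Finset.mem_biUnion.2 ⟨f y z, Finset.mem_range.2 (by omega),
          Finset.mem_filter.2 ⟨z1, rfl⟩⟩
      rw [← Nat.cast_sum, Nat.cast_le]
      exact (Finset.card_le_card (h2 _)).trans Finset.card_biUnion_le)
  have hav : ∀ k ≤ n, H * v k ≤ a k ∧ a k < H * v k + H := fun k hk => by
    have h1 : a k / H = v k := (Finset.mem_filter.1 (ha1 k hk)).2
    have h2 := Nat.div_add_mod (a k) H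
    have h3 := Nat.mod_lt (a k) hH
    rw [h1] at h2
    omega
  refine hno ⟨a, fun k hk => hRm _ (hZR' (Finset.mem_filter.1 (ha1 k hk)).1),
    fun k l hkl hl => ⟨?_, not_not.1 (ha2 k l hkl hl)⟩, fun k hk l hl h => ?_⟩
  · have h1 := Nat.mul_le_mul_left H (hv2 k l hkl hl)
    have h2 := hav k (by omega)
    have h3 := hav l hl
    rw [mul_add] at h1
    omega
  · have h1 := hv3 k hk l hl h
    have h2 := hv2 k (k + 1) (by omega) (by omega)
    have h3 := hv2 l (l + 1) (by omega) (by omega)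
    have h4 : v (l + 1) + 2 + v k ≤ v (k + 1) + v l := by omega
    have h5 := Nat.mul_le_mul_left H h4
    have h6 := Nat.mul_le_mul_left H h3
    have a1 := hav k (by omega)
    have a2 := hav (k + 1) (by omega)
    have a3 := hav l (by omega)
    have a4 := hav (l + 1) (by omega)
    simp only [mul_add] at h5 h6
    omega


end Pool.Agent.P.MP_4cb405_co.Fc
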