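import Mathlib
import Pool.Agent.P.MP_4cb405_co.Fc.SqNum
import Pool.Agent.P.MP_4cb405_co.Fc.TCARVE

set_option autoImplicit false

namespace Pool.Agent.P.MP_4cb405_co.Fc

open Finset Dp

theorem n2_y (a b : ℕ) : ∃ y : ℕ, a * (b + 2 * y) ≤ 2 ^ y := by
  obtain ⟨z, hz⟩ : ∃ z, z = a + b + 7 := ⟨_, rfl⟩
  refine ⟨3 * z, ?_⟩
  have h1 : z ≤ 2 ^ z := Nat.lt_two_pow_self.le
  calc a * (b + 2 * (3 * z)) ≤ z * (7 * z) := Nat.mul_le_mul (by omega) (by omega)
    _ ≤ z * (z * z) := Nat.mul_le_mul_left _ (Nat.mul_le_mul_right _ (by omega))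
    _ ≤ 2 ^ z * (2 ^ z * 2 ^ z) := Nat.mul_le_mul h1 (Nat.mul_le_mul h1 h1)
    _ = 2 ^ (3 * z) := by ring

theorem Sol.mono {f : ℕ → ℕ → ℕ} {n : ℕ} {ρ : ℕ → ℕ} {N N' c : ℕ} (h : Sol f n ρ N c)
    (hN : N ≤ N') : Sol f n ρ N' c := by
  obtain ⟨a, h1, h2⟩ := h
  exact ⟨a, fun l hl => lt_of_lt_of_le (h1 l hl) hN, h2⟩

open Classical in
theorem core (r : ℕ) (hr : 0 < r) : ∃ C : ℕ, ∀ (f : ℕ → ℕ → ℕ), (∀ x y, f x y < r + 1) →
    ∀ (n d : ℕ), 1 ≤ d → d ≤ n + 1 → ∀ (ρ : ℕ → ℕ), (∀ k < n, ρ k < n) →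
    (∀ k < n, ∀ l < n, ρ k = ρ l → k = l) →
    (∀ k < n, ((range n).filter (fun m => ∀ p, ((m ≤ p ∧ p ≤ k) ∨ (k ≤ p ∧ p ≤ m)) →
      ρ m ≤ ρ p)).card ≤ d) →
    ∃ c, Sol f n ρ (2 ^ (C * (n + 1) ^ 2 * (Nat.log 2 (n + 1) + 1) * d ^ (r - 1))) c := by
  obtain ⟨z, hz⟩ := n2_y (337 * r * 3 ^ (r - 1)) (500 * (r + 1) ^ 2 + 2 * (r + 3))
  obtain ⟨y, hy⟩ : ∃ y, y = z + r + 3 := ⟨_, rfl⟩
  refine ⟨336 * r * 3 ^ (r - 1) * (500 * (r + 1) ^ 2 + 2 * y),
    fun f hf n d hd1 hdt ρ hρ hinj hd => ?_⟩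
  set t := n + 1 with ht
  set l := Nat.log 2 t with hl
  set K := (500 * (r + 1) ^ 2 + 2 * y) * (l + 1) with hK
  set X := 2 * t * y * (l + 1) + 6 with hX
  set L := r + 2 * (l + 1) with hL
  let G : ℕ → ℕ := fun m => ∑ j ∈ range m, (2 * d + 1) ^ j
  let φ : ℕ → ℕ := fun c => K * (2 * d + 1) ^ (r - 1 - c)
  let b : ℕ → ℕ := fun c => 10 * t * φ c
  let T : ℕ → ℕ := fun c => 10 * t * K * G (r - c)
  have ht1 : 1 ≤ t := by omega
  have htl : t < 2 ^ (l + 1) := Nat.lt_pow_succ_log_self (by norm_num) t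
  have hK1 : 4 * r ≤ K := by
    have h1 : 4 * r ≤ 500 * (r + 1) ^ 2 + 2 * y := by nlinarith
    exact h1.trans (Nat.le_mul_of_pos_right _ (by positivity))
  have hE : ∀ c < r, ∃ g E, E = 2 * d * g + 1 ∧ E = (2 * d + 1) ^ (r - 1 - c) ∧ φ c = K * E ∧
      T (c + 1) = 10 * t * K * g ∧ T c = 10 * t * K * (g + E) := by
    intro c hc
    obtain ⟨s, rfl⟩ : ∃ s, r = c + 1 + s := ⟨r - 1 - c, by omega⟩
    have e1 : c + 1 + s - 1 - c = s := by omega
    have e2 : c + 1 + s - c = s + 1 := by omega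
    have e3 : c + 1 + s - (c + 1) = s := by omega
    exact ⟨G s, (2 * d + 1) ^ s, (geom d s).symm, by rw [e1], by simp only [φ, e1],
      by simp only [T, e3], by simp only [T, e2, G, Finset.sum_range_succ]⟩
  obtain ⟨g0, E0, a1, a2, -, -, a5⟩ := hE 0 hr
  set B := T 0 + X with hB
  have hB1 : 16 * r * t ≤ B := by
    have : 1 ≤ g0 + E0 := by omega
    calc 16 * r * t ≤ 10 * t * K * 1 := by nlinarith
      _ ≤ 10 * t * K * (g0 + E0) := Nat.mul_le_mul_left _ this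
      _ ≤ _ := by rw [hB, a5]; omega
  have hB4 : 4 ≤ B := by nlinarith
  have hm : 8 * B * (2 * r * t) ≤ 336 * r * 3 ^ (r - 1) * (500 * (r + 1) ^ 2 + 2 * y) * t ^ 2 *
      (l + 1) * d ^ (r - 1) := by
    rw [hB, a5]
    exact sq_m r t l y K d g0 E0 ht1 hd1 hK a1 a2
  suffices hs : ∃ c, Sol f n ρ (2 ^ (8 * B * (2 * r * t))) c by
    obtain ⟨c, hc⟩ := hs
    exact ⟨c, hc.mono (Nat.pow_le_pow_right (by norm_num) hm)⟩
  by_cases hno : Sol f n ρ (2 ^ (8 * B * (2 * r * t))) r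
  · exact ⟨r, hno⟩
  have hLt : r * (n + 1) ^ 2 ≤ 2 ^ L := by
    rw [hL, pow_add, mul_comm 2 (l + 1), pow_mul]
    exact Nat.mul_le_mul Nat.lt_two_pow_self.le (Nat.pow_le_pow_left htl.le 2)
  have hXm := sq_X r n l y z d _ hr htl hdt hy (by
    rw [hy]
    refine le_trans (le_of_eq ?_) hz
    ring) hm
  obtain ⟨w, hwq, hwe, hwc⟩ := struct2 (f := f) (r := r) (L := L) (M := 2 ^ (8 * B))
    (P := 2 ^ (4 * B)) (n0 := 2 ^ (8 * B * (2 * r * t))) (b := b) (γ := fun c => T (c + 1) + r + 2)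
    (κ := fun c => kap (φ c) t) (F := fun c => 2 * T c + r + X + 2 * b c + 1) (kk := fun c => 2 * T c + r + X)
    (ε := u (B + 4)) (by positivity) (u_pos _) (u_le_one _) (fun c hc => by
      obtain ⟨g, E, e1, -, e3, -, e5⟩ := hE c hc
      simp only [b, e3, e5]
      exact sq_par r t l y K d g E ht1 hd1 hK e1) (fun c _ => le_rfl)
    (fun H S hH hS hSm => by
      obtain ⟨Q, q1, q2, q3, q4⟩ := CARVE r L X _ n f hf ρ hρ hinj hLt hXm hno H hH T b
        (fun c hc => by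
          obtain ⟨g, E, -, -, e3, e4, e5⟩ := hE c hc
          simp only [b, e3, e4, e5]
          ring) (by simp [T, G]) S hS hSm
      exact ⟨Q, q1, q2, le_trans (mul_le_mul_of_nonneg_right (u_anti (by omega))
        (by positivity)) q3, q4⟩)
    (numP B _ hB4 (by nlinarith)) (2 * r * t) (range ((2 ^ (8 * B)) ^ (2 * r * t))) 0
    (fun x hx => by rw [pow_mul]; exact Finset.mem_range.1 hx)
    (fun x hx => Nat.div_eq_of_lt (Finset.mem_range.1 hx))
  have hM2 : 2 ≤ 2 ^ (8 * B) := by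
    calc 2 = 2 ^ 1 := rfl
      _ ≤ _ := Nat.pow_le_pow_right (by norm_num) (by omega)
  obtain ⟨lam, c, hc, hsl, hden⟩ := pick (t := t) hr hM2
    (by rw [← pow_mul]; apply le_of_eq; congr 1; ring) w hwq hwc
  obtain ⟨g, hg1, hg2⟩ := enum _ n ((Nat.le_succ n).trans hsl)
  let σ : ℕ → ℕ := fun k => g (n - 1 - ρ k)
  have hσ : ∀ k < n, ∀ l < n, ρ k < ρ l → σ l < σ k := fun k hk l hl h =>
    hg2 _ _ (by have := hρ l hl; omega) (by omega)
  set A := range ((2 ^ (8 * B)) ^ (2 * r * t)) with hA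
  have hAne : A.Nonempty := ⟨0, Finset.mem_range.2 (by positivity)⟩
  have hAc : (0 : ℝ) < A.card := by exact_mod_cast hAne.card_pos
  have habs := hwe hAne lam σ c 0 n d hc (Nat.zero_le _) (fun k _ hk => by
      have := Finset.mem_filter.1 (hg1 (n - 1 - ρ k) (by omega))
      exact ⟨Finset.mem_range.1 this.1, this.2⟩)
    (fun k l _ hk _ hl h => by
      rcases lt_trichotomy (ρ k) (ρ l) with h1 | h1 | h1
      · exact absurd h (hσ k hk l hl h1).ne'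
      · exact hinj k hk l hl h1
      · exact absurd h (hσ l hl k hk h1).ne)
    (fun k _ hk => le_trans (Finset.card_le_card (fun m hm => by
      obtain ⟨m1, m2⟩ := Finset.mem_filter.1 hm
      have m3 := (Finset.mem_Ico.1 m1).2
      refine Finset.mem_filter.2 ⟨Finset.mem_range.2 m3, fun p hp => ?_⟩
      by_contra hlt
      exact absurd (m2 p hp) (not_le.2 (hσ p (by omega) m m3 (not_le.1 hlt))))) (hd k hk))
  set S := A.filter (fun x => ∀ p < 2 * r * t, w x p = lam p) with hS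
  have hτ : tau2 (b c) (T (c + 1) + r + 2) (kap (φ c) t) (n + 1 - 0) d < S.card / A.card := by
    rw [lt_div_iff₀ hAc]
    refine lt_of_lt_of_le (mul_lt_mul_of_pos_right ?_ hAc) hden
    have h1 : tau2 (b c) (T (c + 1) + r + 2) (kap (φ c) t) (n + 1 - 0) d ≤
        u (1 + r * (2 * r * t) + 1) * 2 ^ 0 := by
      refine u_two_le ?_
      obtain ⟨g, E, e1, -, e3, e4, -⟩ := hE c hc
      simp only [b, e3, e4, Nat.sub_zero, ← ht]
      exact sq_C r t l y K d g E ht1 hdt hK e1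
    rw [u_add, u_one] at h1
    have := u_pos (1 + r * (2 * r * t))
    linarith
  have hmax : 0 < max ((S.card : ℝ) / A.card -
      tau2 (b c) (T (c + 1) + r + 2) (kap (φ c) t) (n + 1 - 0) d) 0 :=
    lt_max_of_lt_left (by linarith)
  obtain ⟨a, ha, hin⟩ := habs Unit {()} (fun _ => 1) (fun _ => S) (fun _ => zero_le_one)
    (fun _ _ => Subset.rfl) (by simpa using hmax)
  simp only [sum_singleton, one_mul] at hin
  have hin' : In a 0 n S := by
    by_contra hno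
    rw [if_neg hno] at hin
    exact absurd hin (not_le.2 (mul_pos (u_pos _) hmax))
  refine ⟨c, a, fun k hk => ?_, fun k l h1 h2 => ha.col k l (Nat.zero_le _) h1 h2,
    fun k hk l hl h => ?_⟩
  · rw [pow_mul]
    exact Finset.mem_range.1 (Finset.mem_filter.1 (hin' k (Nat.zero_le _) hk)).1
  · exact lt_of_lt_of_le (ha.win l (Nat.zero_le _) hl).2 (le_trans
      (Nat.pow_le_pow_right (by positivity) (hσ k hk l hl h)) (ha.win k (Nat.zero_le _) hk).1)

end Pool.Agent.P.MP_4cb405_co.Fc
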